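import Mathlib

/-!
# Project TR: the exponent of the norm of the coefficient truncation operator in `L_p`, `0 < p < 2`

THEOREM. For every `p` in `(0, 2)` there is a `C` with
`n^(1/p - 1/2) exp(-C sqrt(log n log log n)) ≤ N^real_{n,p} ≤ N^comp_{n,p} ≤ (n+1)^(1/p - 1/2)`, `n ≥ 3`.

Proof. `V(t) = ∑ φ(j) e^{ijt}`, `φ` with values in `[0,1]`, equal to `1` on `[n/4, n/2]`, `∫ |V|^p ≤ C n^(p-1)`
(KER). Let `q > 2n` be a prime, `ω ∈ (ℤ/q)^k`, `Y(ω) = ∑ cos(2π ω_i/q)`, and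
`P(t) = ∑ φ(j) (1 + (Y(jω) - s)/(4k)) e^{ijt}`: a combination of `2k + 1` translates of `V` (PUP). The truncated
polynomial `G` has the coefficients `min(1 + (Y(jω) - s)/(4k), 1) = 1 + (Y - s)/(4k) - max(Y - s, 0)/(4k)` on the
plateau. Let `Ψ(ω) = ∑_{|S| = d} ∏_{i ∈ S} e(ω_i/q)`, `T(t) = ∑_{j ∈ J} Ψ(jω) e^{ijt}`, `J` the plateau. Average
over `ω`: the mean of `∫ G conj T` is `2π |J|` times a Fourier coefficient of `max(Y - s, 0)` (PAIR), which is large for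
some `s` (TAY, FAC, BES); the mean of `∫ |T|^4` is at most `8π n^4` if `binom(k, d) ≤ n` (CNT, EXP); hence `∫ |G|^p` is
large for some `ω` (LEV). Take `k = ⌊n^(1/d)⌋` (FIN). The upper bound is NIK.

Every `S_XXX` is the exact statement of a package with its proof in the docstring; all packages are
independent of each other. Deliver `theorem xxx : S_XXX`.
-/

set_option autoImplicit false

open Complex MeasureTheory Polynomial Finset ComplexConjugate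

namespace Pool.Agent.P8H70.TR

/-! ## Definitions -/

/-- the coefficient `a` pulled radially into the closed unit disc -/
noncomputable def phi (a : ℂ) : ℂ := (a / (‖a‖ : ℂ)) * ((min ‖a‖ 1 : ℝ) : ℂ)

/-- the truncated polynomial -/
noncomputable def trunc (P : ℂ[X]) : ℂ[X] :=
  ∑ j ∈ P.support, Polynomial.monomial j (phi (P.coeff j))

/-- `∫ |P|^p` over the unit circle -/
noncomputable def Ip (p : ℝ) (P : ℂ[X]) : ℝ :=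
  ∫ t in (0 : ℝ)..(2 * Real.pi), ‖P.eval (cexp (t * I))‖ ^ p

/-- the `L_p` norm on the unit circle -/
noncomputable def Lp (p : ℝ) (P : ℂ[X]) : ℝ := Ip p P ^ (1 / p)

/-- the trigonometric polynomial with the coefficients `a 0, …, a n` -/
noncomputable def tp (n : ℕ) (a : ℕ → ℂ) (t : ℝ) : ℂ :=
  ∑ j ∈ range (n + 1), a j * cexp (((j * t : ℝ) : ℂ) * I)

section
variable (q : ℕ) [NeZero q]

/-- `e(x/q) = exp (2 π i x / q)` -/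
noncomputable def ch (x : ZMod q) : ℂ := ZMod.stdAddChar x

/-- `cos (2 π x / q)` -/
noncomputable def cs (x : ZMod q) : ℝ := (ch q x).re

variable {k : ℕ}

/-- `∑ cos (2 π ω_i / q)` -/
noncomputable def YY (ω : Fin k → ZMod q) : ℝ := ∑ i, cs q (ω i)

/-- `∑_{|S| = d} ∏_{i ∈ S} e(ω_i / q)` -/
noncomputable def Psi (d : ℕ) (ω : Fin k → ZMod q) : ℂ :=
  ∑ S ∈ powersetCard d (univ : Finset (Fin k)), ∏ i ∈ S, ch q (ω i)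

/-- `j ω` -/
def mu (j : ℕ) (ω : Fin k → ZMod q) : Fin k → ZMod q := fun i => (j : ZMod q) * ω i

end

/-! ## Packages -/

/-- KER (150 lines). Let `m = ⌈2 / p⌉ + 1`, `L = n / (4 m) + 1`, `N = n / 2 + 1` (natural division) and
`Q = (∑_{a < N} X^a) * ((1 / L) ∑_{b < L} X^b)^m`, real coefficients. By induction on the number of the
averaging factors (each new coefficient is the mean of `L` old ones, `0` for negative indices): the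
coefficients are in `[0, 1]`, and they are `1` at `m (L - 1) ≤ j ≤ N - 1`, which contains
`n ≤ 4 j`, `2 j ≤ n`; the degree is at most `N - 1 + m (L - 1) ≤ n`. For `|t| ≤ π` one has
`|∑_{b < L} e^{ibt}| ≤ min (L, π / |t|)`, so `|Q(e^{it})|^p ≤ N^p min(1, π / (L |t|))^(m p)` with
`m p ≥ 2`; `∫ ≤ N^p (2 π / L + 2 ∫_{π/L}^π (π / (L t))^2 dt) ≤ 4 π N^p / L` (and `N ≤ 2 n`, `L ≥ n / (4 m)`). -/
def S_KER : Prop := ∀ p : ℝ, 0 < p → ∃ C : ℝ, 0 < C ∧ ∀ n : ℕ, 1 ≤ n → ∃ φ : ℕ → ℝ,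
  (∀ j, 0 ≤ φ j ∧ φ j ≤ 1) ∧ (∀ j, n ≤ 4 * j → 2 * j ≤ n → φ j = 1) ∧
  ∫ t in (0 : ℝ)..(2 * Real.pi), ‖tp n (fun j => (φ j : ℂ)) t‖ ^ p ≤ C * (n : ℝ) ^ (p - 1)

/-- NIK (120 lines). With the normalised measure `dt / 2π`: `‖trunc P‖_p ≤ ‖trunc P‖_2 ≤ ‖P‖_2` (Jensen,
Parseval). `‖P‖_∞ ≤ ∑ |a_j| ≤ (n+1)^(1/2) ‖P‖_2`, so
`‖P‖_2^2 ≤ ‖P‖_∞^(2-p) ‖P‖_p^p ≤ ((n+1)^(1/2) ‖P‖_2)^(2-p) ‖P‖_p^p`, hence
`‖P‖_2 ≤ (n+1)^(1/p-1/2) ‖P‖_p`. -/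
def S_NIK : Prop := ∀ (p : ℝ), 0 < p → p < 2 → ∀ (n : ℕ) (P : ℂ[X]), P.natDegree ≤ n →
  Lp p (trunc P) ≤ ((n : ℝ) + 1) ^ (1 / p - 1 / 2) * Lp p P

/-- PUP (80 lines). `∑ φ(j) e(j ω_i / q) e^{ijt}` is the translate of `V = tp n φ` by `2 π ω_i / q`, so
the function is `(1 - s / (4k)) V + (1 / (8k)) ∑_i (V(t + θ_i) + V(t - θ_i))`: `2 k + 1` terms, each a translate of
`V` times a constant of modulus at most `5/4`. `(∑_{l ≤ N} x_l)^p ≤ N^p ∑ x_l^p` for `x_l ≥ 0`, and the integral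
over a period is translation invariant: `∫ ≤ (2k+1)^p (5/4)^p (2k+1) ∫ |V|^p`. -/
def S_PUP : Prop := ∀ (p : ℝ), 0 < p → ∀ (n k q : ℕ) [NeZero q] (φ : ℕ → ℝ) (s : ℝ)
    (ω : Fin k → ZMod q), 1 ≤ k → |s| ≤ k →
  ∫ t in (0 : ℝ)..(2 * Real.pi),
    ‖tp n (fun j => ((φ j * (1 + (YY q (mu q j ω) - s) / (4 * k)) : ℝ) : ℂ)) t‖ ^ p ≤
  (4 * k : ℝ) ^ (p + 1) * ∫ t in (0 : ℝ)..(2 * Real.pi), ‖tp n (fun j => (φ j : ℂ)) t‖ ^ p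

/-- TAY (80 lines). Taylor's formula with integral remainder for `f(y) = e^{iuy}` at `-K`, for `|y| ≤ K`:
`f(y) = f(-K) + f'(-K) (y + K) + ∫_{-K}^K f''(s) max(y - s, 0) ds`. Multiply by `w` and sum. -/
def S_TAY : Prop := ∀ (Ω : Type) [Fintype Ω] (Y : Ω → ℝ) (w : Ω → ℂ) (K u B : ℝ), 0 < K →
  (∀ ω, |Y ω| ≤ K) → ∑ ω, w ω = 0 → ∑ ω, (Y ω : ℂ) * w ω = 0 →
  (∀ s : ℝ, |s| ≤ K → ‖∑ ω, ((max (Y ω - s) 0 : ℝ) : ℂ) * w ω‖ ≤ B) →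
  ‖∑ ω, cexp (((u * Y ω : ℝ) : ℂ) * I) * w ω‖ ≤ u ^ 2 * (2 * K) * B

/-- FAC (120 lines). `∑_ω ∏_i F_i(ω_i) = ∏_i ∑_x F_i(x)`, with one or more factors `∑_x conj (ch x) = 0`
in the first two parts, and for each `S` with `|S| = d` the product in the third. -/
def S_FAC : Prop := ∀ (q : ℕ) [NeZero q] (k d : ℕ), 2 ≤ q → 2 ≤ d → d ≤ k →
  ∑ ω : Fin k → ZMod q, conj (Psi q d ω) = 0 ∧
  ∑ ω : Fin k → ZMod q, (YY q ω : ℂ) * conj (Psi q d ω) = 0 ∧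
  ∀ u : ℝ, ∑ ω : Fin k → ZMod q, cexp (((u * YY q ω : ℝ) : ℂ) * I) * conj (Psi q d ω) =
    (k.choose d : ℂ) * (∑ x : ZMod q, cexp (((u * cs q x : ℝ) : ℂ) * I) * conj (ch q x)) ^ d *
      (∑ x : ZMod q, cexp (((u * cs q x : ℝ) : ℂ) * I)) ^ (k - d)

/-- BES (80 lines). The imaginary part of the first sum is `∑ cos(x) sin(u cos x) - ∑ sin(x) cos(u cos x)`, the
second sum is zero (`x ↦ -x`), and `c sin(u c) ≥ (2/π) u c^2` for `|c| ≤ 1`, `∑ cos^2 = q/2` (`q ≥ 3`). The real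
part of the second sum is `∑ cos(u cos x) ≥ ∑ (1 - u^2 cos^2 x / 2)`. -/
def S_BES : Prop := ∀ (q : ℕ) [NeZero q], 3 ≤ q → ∀ u : ℝ, 0 ≤ u → u ≤ 1 →
  u / 4 * q ≤ ‖∑ x : ZMod q, cexp (((u * cs q x : ℝ) : ℂ) * I) * conj (ch q x)‖ ∧
  (1 - u ^ 2 / 4) * q ≤ ‖∑ x : ZMod q, cexp (((u * cs q x : ℝ) : ℂ) * I)‖

/-- CNT (120 lines). Let `M = binom(k, d)`; `a, b, c, e` with `j_a + j_b = j_c + j_e`. For each `i` the
second condition is `j_a [i ∈ S_a] + j_b [i ∈ S_b] = j_c [i ∈ S_c] + j_e [i ∈ S_e]`, all `j ≥ 1`. If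
`j_a ≠ j_c` and `j_a ≠ j_e`, all the brackets are equal for each `i`, so `S_a = S_b = S_c = S_e`: at most
`n^3 M` quadruples. If `j_a = j_c ≠ j_b = j_e`: `S_a = S_c`, `S_b = S_e`: `n^2 M^2`; in the same way
`j_a = j_e ≠ j_b = j_c`. If all four `j` are equal, `S_e` is determined by `S_a, S_b, S_c`: `n M^3`. -/
def S_CNT : Prop := ∀ (n k d : ℕ) (J : Finset ℕ), (∀ j ∈ J, 1 ≤ j ∧ j ≤ n) →
  ((((J ×ˢ powersetCard d (univ : Finset (Fin k))) ×ˢ (J ×ˢ powersetCard d univ)) ×ˢ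
    ((J ×ˢ powersetCard d univ) ×ˢ (J ×ˢ powersetCard d univ))).filter
      (fun x => x.1.1.1 + x.1.2.1 = x.2.1.1 + x.2.2.1 ∧ ∀ i : Fin k,
        (if i ∈ x.1.1.2 then x.1.1.1 else 0) + (if i ∈ x.1.2.2 then x.1.2.1 else 0) =
        (if i ∈ x.2.1.2 then x.2.1.1 else 0) + (if i ∈ x.2.2.2 then x.2.2.1 else 0))).card ≤
    n ^ 3 * k.choose d + 2 * (n ^ 2 * (k.choose d) ^ 2) + n * (k.choose d) ^ 3

/-- EXP (120 lines). `T(t) = ∑_{(j, S)} F_{j,S}`, `F_{j,S} = e^{ijt} ∏_{i ∈ S} ch(j ω_i)`; expand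
`|T|^4 = T T conj T conj T`; by orthogonality of `e^{imt}` on the circle and of the characters of
`ℤ/q` (integers of modulus at most `2 n < q` which are `0` mod `q` are `0`) each quadruple gives `2 π q^k` or
`0`, and it gives `2 π q^k` exactly for the quadruples counted in CNT. -/
def S_EXP : Prop := S_CNT → ∀ (q : ℕ) [NeZero q] (n k d : ℕ) (J : Finset ℕ), 2 * n < q →
  (∀ j ∈ J, 1 ≤ j ∧ j ≤ n) →
  ∑ ω : Fin k → ZMod q, ∫ t in (0 : ℝ)..(2 * Real.pi),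
    ‖tp n (fun j => if j ∈ J then Psi q d (mu q j ω) else 0) t‖ ^ 4 ≤
  (q : ℝ) ^ k * (2 * Real.pi) *
    ((n : ℝ) ^ 3 * k.choose d + 2 * ((n : ℝ) ^ 2 * (k.choose d : ℝ) ^ 2) + n * (k.choose d : ℝ) ^ 3)

/-- PAIR (80 lines). Parseval on the circle, then for each `j ∈ J` the substitution `ω ↦ j ω`, a bijection
(`j` is invertible modulo the prime `q > n ≥ j ≥ 1`). -/
def S_PAIR : Prop := ∀ (q : ℕ) [NeZero q] (n k d : ℕ) (J : Finset ℕ), q.Prime → n < q →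
  (∀ j ∈ J, 1 ≤ j ∧ j ≤ n) → ∀ (g : (Fin k → ZMod q) → ℂ) (b : ℕ → (Fin k → ZMod q) → ℂ),
  (∀ j ∈ J, ∀ ω, b j ω = g (mu q j ω)) →
  ∑ ω : Fin k → ZMod q, ∫ t in (0 : ℝ)..(2 * Real.pi), tp n (fun j => b j ω) t *
    conj (tp n (fun j => if j ∈ J then Psi q d (mu q j ω) else 0) t) =
  2 * Real.pi * (J.card : ℂ) * ∑ ω : Fin k → ZMod q, g ω * conj (Psi q d ω)

/-- LEV (80 lines). Pointwise for `x, y ≥ 0` and `λ, β, δ, κ > 0`: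
`x y ≤ λ (y^4 / (4 κ^3) + 3 κ / 4) + (β / 2) x^2 + (δ / (4 β)) y^4 + (1 / (4 β δ)) (x / λ)^p`
(if `x ≤ λ` use `y κ^3 ≤ (y^4 + 3 κ^4) / 4`; if `x > λ` use `x y ≤ β x^2 / 2 + y^2 / (2 β)`,
`y^2 ≤ δ y^4 / 2 + 1 / (2 δ)` and `(x / λ)^p ≥ 1`). Take `x = |G|`, `y = |T|`, `κ = n`, `A = τ n^(3/2)`,
`λ = A / (14 π n)`, `β = A / (8 π n)`, `δ = β A / (8 π n^4)`; integrate and take the mean over `ω`: the first three terms
are at most `A / 4` each, so the mean of `∫ |G|^p` is at least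
`A β δ λ^p = τ^4 / (512 π^3) (τ n^(1/2) / (14 π))^p`. -/
def S_LEV : Prop := ∀ (Ω : Type) [Fintype Ω] [Nonempty Ω] (G T : Ω → ℝ → ℂ) (p τ : ℝ) (n : ℕ),
  0 < p → 0 < τ → 1 ≤ n → (∀ ω, Continuous (G ω)) → (∀ ω, Continuous (T ω)) →
  (∀ ω, ∫ t in (0 : ℝ)..(2 * Real.pi), ‖G ω t‖ ^ 2 ≤ 4 * Real.pi * n) →
  ∑ ω, ∫ t in (0 : ℝ)..(2 * Real.pi), ‖T ω t‖ ^ 4 ≤ Fintype.card Ω * (8 * Real.pi * n ^ 4) →
  Fintype.card Ω * (τ * (n * Real.sqrt n)) ≤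
    ‖∑ ω, ∫ t in (0 : ℝ)..(2 * Real.pi), G ω t * conj (T ω t)‖ →
  ∃ ω, τ ^ 4 / 16000 * (τ * Real.sqrt n / 44) ^ p ≤ ∫ t in (0 : ℝ)..(2 * Real.pi), ‖G ω t‖ ^ p

/-- FIN (120 lines). Let `L = log n`, `l = log L`. If `L ≥ 400` (so `l ≥ 1`) let `d = ⌈sqrt(L / l)⌉`,
`k = ⌊n^(1/d)⌋`. Then `2 ≤ d ≤ 2 sqrt(L/l)`, `d log d ≤ 3 sqrt(L l)`, `log k ≤ L / d ≤ sqrt(L l)`;
`n^(1/d) ≥ exp(sqrt(L l) / 2) ≥ exp(sqrt L / 2) ≥ 1 + sqrt L / 2 + L / 8 ≥ 3 sqrt L ≥ d + 1`, so `k ≥ d`; `k^d ≤ n` and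
`n ≤ (k+1)^d ≤ (2k)^d`. If `L < 400` use `F n ≥ 1` and `sqrt(L l) ≥ sqrt(log 3 log log 3) > 0`. -/
def S_FIN : Prop := ∀ (F : ℕ → ℝ) (r C : ℝ), 0 < r → 0 < C → (∀ n, 1 ≤ n → 1 ≤ F n) →
  (∀ n d k : ℕ, 2 ≤ d → d ≤ k → k ^ d ≤ n → n ≤ (2 * k) ^ d →
    (n : ℝ) ^ r * Real.exp (-(C * (1 + Real.log k + d * Real.log d))) ≤ F n) →
  ∃ C' : ℝ, 0 < C' ∧ ∀ n : ℕ, 3 ≤ n →
    (n : ℝ) ^ r * Real.exp (-(C' * Real.sqrt (Real.log n * Real.log (Real.log n)))) ≤ F n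

end Pool.Agent.P8H70.TR
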