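import Pool.Agent.P8H70.TR.Stm

/-!
# Project TR, assembly: a large Fourier coefficient
-/

set_option autoImplicit false

open Complex MeasureTheory Polynomial Finset ComplexConjugate

namespace Pool.Agent.P8H70.TR

lemma norm_ch (q : ℕ) [NeZero q] (x : ZMod q) : ‖ch q x‖ = 1 := by
  unfold ch
  exact AddChar.norm_apply _ _

lemma abs_cs (q : ℕ) [NeZero q] (x : ZMod q) : |cs q x| ≤ 1 := by
  unfold cs
  exact (Complex.abs_re_le_norm _).trans (norm_ch q x).le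

lemma abs_YY (q : ℕ) [NeZero q] {k : ℕ} (ω : Fin k → ZMod q) : |YY q ω| ≤ k := by
  unfold YY
  refine (Finset.abs_sum_le_sum_abs _ _).trans ((Finset.sum_le_sum fun i _ => abs_cs q _).trans ?_)
  simp

lemma pow_le_choose' : ∀ d k : ℕ, d ≤ k → k ^ d ≤ d ^ d * k.choose d := by
  intro d
  induction d with
  | zero => intro k _; simp
  | succ d ih =>
    intro k hk
    obtain ⟨k, rfl⟩ : ∃ m, k = m + 1 := ⟨k - 1, by omega⟩
    have hk' : d ≤ k := by omega
    have h1 := ih k hk'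
    have h2 : (k + 1) ^ d ≤ (d + 1) ^ d * k.choose d := by
      rcases Nat.eq_zero_or_pos d with rfl | hd
      · simp
      · have hdd : 0 < d ^ d := Nat.pow_pos hd
        refine Nat.le_of_mul_le_mul_left ?_ hdd
        calc d ^ d * (k + 1) ^ d = (d * (k + 1)) ^ d := (mul_pow _ _ _).symm
          _ ≤ ((d + 1) * k) ^ d := Nat.pow_le_pow_left (by nlinarith) _
          _ = (d + 1) ^ d * k ^ d := mul_pow _ _ _
          _ ≤ (d + 1) ^ d * (d ^ d * k.choose d) := Nat.mul_le_mul_left _ h1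
          _ = d ^ d * ((d + 1) ^ d * k.choose d) := by ring
    calc (k + 1) ^ (d + 1) = (k + 1) * (k + 1) ^ d := by ring
      _ ≤ (k + 1) * ((d + 1) ^ d * k.choose d) := Nat.mul_le_mul_left _ h2
      _ = (d + 1) ^ d * ((k + 1) * k.choose d) := by ring
      _ = (d + 1) ^ d * ((k + 1).choose (d + 1) * (d + 1)) := by
        rw [Nat.add_one_mul_choose_eq]
      _ = (d + 1) ^ (d + 1) * (k + 1).choose (d + 1) := by ring

theorem cha (hT : S_TAY) (hF : S_FAC) (hB : S_BES) (q : ℕ) [NeZero q] (k d : ℕ) (hq : 3 ≤ q)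
    (hd : 2 ≤ d) (hdk : d ≤ k) : ∃ s : ℝ, |s| ≤ k ∧
    (k.choose d : ℝ) * (1 / (4 * Real.sqrt k)) ^ d / 8 * (q : ℝ) ^ k ≤
      ‖∑ ω : Fin k → ZMod q, ((max (YY q ω - s) 0 : ℝ) : ℂ) * conj (Psi q d ω)‖ := by
  by_contra hcon
  push Not at hcon
  have hk : (0 : ℝ) < k := by
    have : 0 < k := by omega
    exact_mod_cast this
  have hk1 : (1 : ℝ) ≤ k := by
    have : 1 ≤ k := by omega
    exact_mod_cast this
  have hsk : 0 < Real.sqrt k := Real.sqrt_pos.2 hk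
  have hsk1 : 1 ≤ Real.sqrt k := by
    rw [show (1 : ℝ) = Real.sqrt 1 by simp]
    exact Real.sqrt_le_sqrt hk1
  have hq0 : (0 : ℝ) < q := by
    have : 0 < q := by omega
    exact_mod_cast this
  obtain ⟨f1, f2, f3⟩ := hF q k d (by omega) hd hdk
  set u : ℝ := 1 / Real.sqrt k with hu
  have hu0 : 0 < u := by positivity
  have hu1 : u ≤ 1 := by
    rw [hu, div_le_one hsk]; exact hsk1
  have hu2 : u ^ 2 = 1 / k := by
    rw [hu, div_pow, one_pow, Real.sq_sqrt hk.le]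
  obtain ⟨b1, b2⟩ := hB q hq u hu0.le hu1
  set B : ℝ := (k.choose d : ℝ) * (1 / (4 * Real.sqrt k)) ^ d / 8 * (q : ℝ) ^ k with hBdef
  have hM : (0 : ℝ) < k.choose d := by exact_mod_cast Nat.choose_pos hdk
  have hBpos : 0 < B := by positivity
  have h1 := hT (Fin k → ZMod q) (fun ω => YY q ω) (fun ω => conj (Psi q d ω)) k u B hk
    (fun ω => abs_YY q ω) f1 f2 (fun s hs => (hcon s hs).le)
  rw [f3 u, norm_mul, norm_mul, norm_pow, norm_pow] at h1
  have h2 : u ^ 2 * (2 * k) * B = 2 * B := by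
    rw [hu2]; field_simp
  rw [h2] at h1
  have h3 : ‖(k.choose d : ℂ)‖ = k.choose d := by simp
  rw [h3] at h1
  have h4 : (u / 4 * q) ^ d ≤
      ‖∑ x : ZMod q, cexp (((u * cs q x : ℝ) : ℂ) * I) * conj (ch q x)‖ ^ d :=
    pow_le_pow_left₀ (by positivity) b1 d
  have hb0 : 0 ≤ (1 - u ^ 2 / 4) * (q : ℝ) := by
    rw [hu2]
    have : 1 / (k : ℝ) ≤ 1 := by rw [div_le_one hk]; exact hk1
    apply mul_nonneg _ hq0.le
    linarith
  have h5 : ((1 - u ^ 2 / 4) * q) ^ (k - d) ≤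
      ‖∑ x : ZMod q, cexp (((u * cs q x : ℝ) : ℂ) * I)‖ ^ (k - d) :=
    pow_le_pow_left₀ hb0 b2 _
  have h6 : (3 / 4 : ℝ) ≤ (1 - u ^ 2 / 4) ^ (k - d) := by
    have hb := one_add_mul_le_pow (a := -(u ^ 2 / 4)) (by
      rw [hu2]
      have : 1 / (k : ℝ) ≤ 1 := by rw [div_le_one hk]; exact hk1
      linarith) (k - d)
    have e : (1 + -(u ^ 2 / 4)) = 1 - u ^ 2 / 4 := by ring
    rw [e] at hb
    refine le_trans ?_ hb
    rw [hu2]
    have hc : (((k - d : ℕ)) : ℝ) ≤ k := by exact_mod_cast Nat.sub_le k d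
    have : ((k - d : ℕ) : ℝ) * -(1 / (k : ℝ) / 4) ≥ -(1 / 4) := by
      have h : ((k - d : ℕ) : ℝ) * (1 / (k : ℝ) / 4) ≤ (k : ℝ) * (1 / (k : ℝ) / 4) :=
        mul_le_mul_of_nonneg_right hc (by positivity)
      have h' : (k : ℝ) * (1 / (k : ℝ) / 4) = 1 / 4 := by field_simp
      linarith
    linarith
  have h7 : (k.choose d : ℝ) * (u / 4 * q) ^ d * ((1 - u ^ 2 / 4) * q) ^ (k - d) ≤ 2 * B := by
    refine le_trans ?_ h1
    apply mul_le_mul _ h5 (pow_nonneg hb0 _) (by positivity)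
    exact mul_le_mul_of_nonneg_left h4 hM.le
  have h8 : (k.choose d : ℝ) * (u / 4 * q) ^ d * ((1 - u ^ 2 / 4) * q) ^ (k - d) =
      8 * B * (1 - u ^ 2 / 4) ^ (k - d) := by
    have e1 : (q : ℝ) ^ k = (q : ℝ) ^ d * (q : ℝ) ^ (k - d) := by
      rw [← pow_add]; congr 1; omega
    have e2 : u / 4 = 1 / (4 * Real.sqrt k) := by rw [hu]; field_simp
    rw [hBdef, e1, mul_pow, mul_pow, e2]
    ring
  rw [h8] at h7
  nlinarith

end Pool.Agent.P8H70.TR
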