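import Pool.Agent.P8H70.TR.Pol

/-!
# Project TR, assembly: the lower bound
-/

set_option autoImplicit false

open Complex MeasureTheory Polynomial Finset ComplexConjugate

namespace Pool.Agent.P8H70.TR

/-- the plateau -/
def JJ (n : ℕ) : Finset ℕ := (range (n + 1)).filter (fun j => n ≤ 4 * j ∧ 2 * j ≤ n)

lemma mem_JJ {n j : ℕ} : j ∈ JJ n ↔ n ≤ 4 * j ∧ 2 * j ≤ n := by
  unfold JJ
  rw [Finset.mem_filter, Finset.mem_range]
  constructor
  · exact fun h => h.2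
  · intro h
    exact ⟨by omega, h⟩

lemma card_JJ {n : ℕ} (hn : 2 ≤ n) : (n : ℝ) / 8 ≤ (JJ n).card := by
  have h : Finset.Icc ((n + 3) / 4) (n / 2) ⊆ JJ n := by
    intro j hj
    rw [Finset.mem_Icc] at hj
    rw [mem_JJ]
    omega
  have h1 := Finset.card_le_card h
  rw [Nat.card_Icc] at h1
  have h2 : n ≤ 8 * (n / 2 + 1 - (n + 3) / 4) := by omega
  have h3 : n ≤ 8 * (JJ n).card := by omega
  have h4 : (n : ℝ) ≤ 8 * ((JJ n).card : ℝ) := by exact_mod_cast h3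
  linarith

/-- the truncated coefficient -/
noncomputable def gg (q : ℕ) [NeZero q] {k : ℕ} (s : ℝ) (ω : Fin k → ZMod q) : ℝ :=
  min (1 + (YY q ω - s) / (4 * k)) 1

lemma gg_eq (q : ℕ) [NeZero q] {k : ℕ} (hk : 0 < k) (s : ℝ) (ω : Fin k → ZMod q) :
    gg q s ω = (1 - s / (4 * k)) + 1 / (4 * k) * YY q ω - 1 / (4 * k) * max (YY q ω - s) 0 := by
  have hk' : (0 : ℝ) < k := by exact_mod_cast hk
  unfold gg
  rcases le_total (YY q ω - s) 0 with h | h
  · have h1 : (YY q ω - s) / (4 * k) ≤ 0 := div_nonpos_of_nonpos_of_nonneg h (by positivity)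
    rw [min_eq_left (by linarith), max_eq_right h]
    ring
  · have h1 : 0 ≤ (YY q ω - s) / (4 * k) := div_nonneg h (by positivity)
    rw [min_eq_right (by linarith), max_eq_left h]
    field_simp
    ring

lemma sum_gg (hF : S_FAC) (q : ℕ) [NeZero q] (k d : ℕ) (hq : 2 ≤ q) (hd : 2 ≤ d) (hdk : d ≤ k)
    (s : ℝ) : ∑ ω : Fin k → ZMod q, ((gg q s ω : ℝ) : ℂ) * conj (Psi q d ω) =
      -(1 / (4 * k) : ℂ) *
        ∑ ω : Fin k → ZMod q, ((max (YY q ω - s) 0 : ℝ) : ℂ) * conj (Psi q d ω) := by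
  obtain ⟨f1, f2, _⟩ := hF q k d hq hd hdk
  have e : ∀ ω : Fin k → ZMod q, ((gg q s ω : ℝ) : ℂ) * conj (Psi q d ω) =
      (1 - s / (4 * k) : ℂ) * conj (Psi q d ω) + (1 / (4 * k) : ℂ) *
        ((YY q ω : ℂ) * conj (Psi q d ω)) +
      -(1 / (4 * k) : ℂ) * (((max (YY q ω - s) 0 : ℝ) : ℂ) * conj (Psi q d ω)) := by
    intro ω
    rw [gg_eq q (by omega) s ω]
    push_cast
    ring
  rw [Finset.sum_congr rfl fun ω _ => e ω, Finset.sum_add_distrib, Finset.sum_add_distrib,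
    ← Finset.mul_sum, ← Finset.mul_sum, ← Finset.mul_sum, f1, f2]
  ring

/-- the lower bound for given parameters -/
theorem lower (hKER : S_KER) (hPUP : S_PUP) (hT : S_TAY) (hF : S_FAC) (hB : S_BES) (hCNT : S_CNT)
    (hEXP : S_EXP) (hPAIR : S_PAIR) (hLEV : S_LEV) (p : ℝ) (hp : 0 < p) :
    ∃ C : ℝ, 0 < C ∧ ∀ n d k : ℕ, 2 ≤ d → d ≤ k → k ^ d ≤ n → n ≤ (2 * k) ^ d →
      ∃ (a : ℕ → ℝ) (τ : ℝ), (∀ j, 0 ≤ a j) ∧ τ = 1 / (43 * k * (6 * d) ^ d) ∧
        τ ^ 4 / 16000 * (τ * Real.sqrt n / 44) ^ p ≤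
          ∫ t in (0 : ℝ)..(2 * Real.pi), ‖tp n (fun j => ((min (a j) 1 : ℝ) : ℂ)) t‖ ^ p ∧
        ∫ t in (0 : ℝ)..(2 * Real.pi), ‖tp n (fun j => (a j : ℂ)) t‖ ^ p ≤
          (4 * k : ℝ) ^ (p + 1) * (C * (n : ℝ) ^ (p - 1)) := by
  obtain ⟨C, hC, hker⟩ := hKER p hp
  refine ⟨C, hC, fun n d k hd hdk hkn hnk => ?_⟩
  have hk2 : 2 ≤ k := hd.trans hdk
  have hn4 : 4 ≤ n := by
    calc 4 = 2 ^ 2 := by norm_num
      _ ≤ 2 ^ d := Nat.pow_le_pow_right (by norm_num) hd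
      _ ≤ k ^ d := Nat.pow_le_pow_left hk2 d
      _ ≤ n := hkn
  obtain ⟨φ, hφ1, hφ2, hφ3⟩ := hker n (by omega)
  obtain ⟨q, hq1, hqp⟩ := Nat.exists_infinite_primes (2 * n + 3)
  haveI : NeZero q := ⟨hqp.ne_zero⟩
  obtain ⟨s, hs, hS⟩ := cha hT hF hB q k d (by omega) hd hdk
  have hkR : (2 : ℝ) ≤ k := by exact_mod_cast hk2
  have hk0 : (0 : ℝ) < k := by linarith
  have hnR : (4 : ℝ) ≤ n := by exact_mod_cast hn4
  have hn0 : (0 : ℝ) < n := by linarith
  have hd0 : (0 : ℝ) < d := by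
    have : 0 < d := by omega
    exact_mod_cast this
  have hqR : (0 : ℝ) < q := by exact_mod_cast hqp.pos
  set A : (Fin k → ZMod q) → ℕ → ℝ := fun ω j => φ j * (1 + (YY q (mu q j ω) - s) / (4 * k))
    with hA
  have hA0 : ∀ ω j, 0 ≤ A ω j := by
    intro ω j
    refine mul_nonneg (hφ1 j).1 ?_
    have h1 := abs_le.1 (abs_YY q (mu q j ω))
    have h2 := abs_le.1 hs
    have h3 : -1 ≤ (YY q (mu q j ω) - s) / (4 * k) := by
      rw [le_div_iff₀ (by positivity)]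
      linarith [h1.1, h2.2]
    linarith
  set τ : ℝ := 1 / (43 * k * (6 * d) ^ d) with hτ
  have hτ0 : 0 < τ := by positivity
  -- the truncated functions and the test functions
  set G : (Fin k → ZMod q) → ℝ → ℂ := fun ω => tp n (fun j => ((min (A ω j) 1 : ℝ) : ℂ)) with hG
  set T : (Fin k → ZMod q) → ℝ → ℂ :=
    fun ω => tp n (fun j => if j ∈ JJ n then Psi q d (mu q j ω) else 0) with hTdef
  have hJ : ∀ j ∈ JJ n, 1 ≤ j ∧ j ≤ n := by
    intro j hj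
    rw [mem_JJ] at hj
    omega
  have hcard : (Fintype.card (Fin k → ZMod q) : ℝ) = (q : ℝ) ^ k := by
    rw [Fintype.card_fun, ZMod.card, Fintype.card_fin]
    push_cast
    rfl
  have hpair := hPAIR q n k d (JJ n) hqp (by omega) hJ (fun ω => ((gg q s ω : ℝ) : ℂ))
    (fun j ω => ((min (A ω j) 1 : ℝ) : ℂ)) (by
      intro j hj ω
      rw [mem_JJ] at hj
      simp only [hA, gg]
      rw [hφ2 j hj.1 hj.2, one_mul])
  rw [sum_gg hF q k d (by omega) hd hdk s] at hpair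
  -- the bound `binom(k,d) ≥ (k/d)^d`
  have hM0 : (0 : ℝ) < k.choose d := by exact_mod_cast Nat.choose_pos hdk
  have hM1 : (k.choose d : ℝ) ≤ n := by
    have h : k.choose d ≤ n := (Nat.choose_le_pow k d).trans hkn
    exact_mod_cast h
  have hMl : (k : ℝ) ^ d ≤ (d : ℝ) ^ d * k.choose d := by
    exact_mod_cast pow_le_choose' d k hdk
  have hsk : 0 < Real.sqrt k := Real.sqrt_pos.2 hk0
  have hpair2 : (q : ℝ) ^ k * (τ * (n * Real.sqrt n)) ≤
      ‖∑ ω : Fin k → ZMod q, ∫ t in (0 : ℝ)..(2 * Real.pi), G ω t * conj (T ω t)‖ := by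
    have e : ∑ ω : Fin k → ZMod q, ∫ t in (0 : ℝ)..(2 * Real.pi), G ω t * conj (T ω t) =
      2 * Real.pi * ((JJ n).card : ℂ) * (-(1 / (4 * k) : ℂ) *
        ∑ ω : Fin k → ZMod q, ((max (YY q ω - s) 0 : ℝ) : ℂ) * conj (Psi q d ω)) := hpair
    rw [e, norm_mul, norm_mul, norm_mul, norm_mul, norm_neg]
    have n1 : ‖(2 : ℂ)‖ = 2 := by simp
    have n2 : ‖((Real.pi : ℝ) : ℂ)‖ = Real.pi := by
      rw [Complex.norm_real, Real.norm_eq_abs, abs_of_pos Real.pi_pos]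
    have n3 : ‖(((JJ n).card : ℕ) : ℂ)‖ = (JJ n).card := by simp
    have n4 : ‖(1 / (4 * k) : ℂ)‖ = 1 / (4 * k) := by simp
    rw [n1, n2, n3, n4]
    have hcJ := card_JJ (n := n) (by omega)
    have hpi : (3 : ℝ) ≤ Real.pi := Real.pi_gt_three.le
    -- sqrt n ≤ (sqrt k)^d (3/2)^d
    have hsq : Real.sqrt n ≤ (Real.sqrt k) ^ d * (3 / 2) ^ d := by
      rw [Real.sqrt_le_left (by positivity)]
      have h1 : (n : ℝ) ≤ (2 * k) ^ d := by exact_mod_cast hnk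
      have h2 : ((Real.sqrt k) ^ d * (3 / 2 : ℝ) ^ d) ^ 2 = (k * (9 / 4)) ^ d := by
        rw [← mul_pow, ← pow_mul, mul_comm d 2, pow_mul, mul_pow, Real.sq_sqrt hk0.le]
        norm_num
      rw [h2]
      refine h1.trans (pow_le_pow_left₀ (by positivity) (by linarith) d)
    have hτle : τ * (n * Real.sqrt n) ≤ 2 * 3 * (n / 8) * (1 / (4 * k) *
        ((k.choose d : ℝ) * (1 / (4 * Real.sqrt k)) ^ d / 8)) := by
      have h1 : (k : ℝ) ^ d = (Real.sqrt k) ^ d * (Real.sqrt k) ^ d := by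
        rw [← mul_pow, Real.mul_self_sqrt hk0.le]
      have h2 : (Real.sqrt k) ^ d ≤ d ^ d * ((k.choose d : ℝ) * (1 / Real.sqrt k) ^ d) := by
        have h3 : (1 / Real.sqrt k) ^ d = 1 / (Real.sqrt k) ^ d := by
          rw [div_pow, one_pow]
        rw [h3]
        rw [show (d : ℝ) ^ d * ((k.choose d : ℝ) * (1 / (Real.sqrt k) ^ d)) =
          (d ^ d * k.choose d) / (Real.sqrt k) ^ d by ring]
        rw [le_div_iff₀ (by positivity), ← h1]
        exact hMl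
      have h4 : (1 / (4 * Real.sqrt k)) ^ d = (1 / 4) ^ d * (1 / Real.sqrt k) ^ d := by
        rw [← mul_pow]; congr 1; field_simp
      have h5 : (6 * (d : ℝ)) ^ d = (3 / 2) ^ d * (4 ^ d * d ^ d) := by
        rw [← mul_pow, ← mul_pow]; congr 1; ring
      have h6 : Real.sqrt n ≤ (6 * (d : ℝ)) ^ d *
          ((k.choose d : ℝ) * (1 / (4 * Real.sqrt k)) ^ d) := by
        refine hsq.trans ?_
        rw [h4, h5]
        have h7 : (Real.sqrt k) ^ d * (3 / 2) ^ d ≤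
            (d ^ d * ((k.choose d : ℝ) * (1 / Real.sqrt k) ^ d)) * (3 / 2) ^ d :=
          mul_le_mul_of_nonneg_right h2 (by positivity)
        refine h7.trans (le_of_eq ?_)
        have h8 : (4 : ℝ) ^ d * (1 / 4) ^ d = 1 := by
          rw [← mul_pow]; norm_num
        calc (d ^ d * ((k.choose d : ℝ) * (1 / Real.sqrt k) ^ d)) * (3 / 2) ^ d
            = (4 ^ d * (1 / 4) ^ d) * ((d ^ d * ((k.choose d : ℝ) * (1 / Real.sqrt k) ^ d)) *
              (3 / 2) ^ d) := by rw [h8, one_mul]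
          _ = _ := by ring
      rw [hτ]
      have h9 : 1 / (43 * k * (6 * (d : ℝ)) ^ d) * (n * Real.sqrt n) ≤
          1 / (43 * k * (6 * (d : ℝ)) ^ d) * (n * ((6 * (d : ℝ)) ^ d *
          ((k.choose d : ℝ) * (1 / (4 * Real.sqrt k)) ^ d))) := by gcongr
      refine h9.trans ?_
      have h10 : 1 / (43 * k * (6 * (d : ℝ)) ^ d) * (n * ((6 * (d : ℝ)) ^ d *
          ((k.choose d : ℝ) * (1 / (4 * Real.sqrt k)) ^ d))) =
          (1 / 43) * ((n / k) * ((k.choose d : ℝ) * (1 / (4 * Real.sqrt k)) ^ d)) := by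
        field_simp
      have h11 : 2 * 3 * ((n : ℝ) / 8) * (1 / (4 * k) *
        ((k.choose d : ℝ) * (1 / (4 * Real.sqrt k)) ^ d / 8)) =
          (6 / 256) * ((n / k) * ((k.choose d : ℝ) * (1 / (4 * Real.sqrt k)) ^ d)) := by
        field_simp
        ring
      rw [h10, h11]
      have : (0 : ℝ) ≤ (n / k) * ((k.choose d : ℝ) * (1 / (4 * Real.sqrt k)) ^ d) := by
        positivity
      nlinarith
    calc (q : ℝ) ^ k * (τ * (n * Real.sqrt n))
        ≤ (q : ℝ) ^ k * (2 * 3 * (n / 8) * (1 / (4 * k) *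
          ((k.choose d : ℝ) * (1 / (4 * Real.sqrt k)) ^ d / 8))) := by gcongr
      _ = 2 * 3 * (n / 8) * (1 / (4 * k) *
          ((k.choose d : ℝ) * (1 / (4 * Real.sqrt k)) ^ d / 8 * (q : ℝ) ^ k)) := by ring
      _ ≤ _ := by gcongr
  have hL := hLEV (Fin k → ZMod q) G T p τ n hp hτ0 (by omega)
    (fun ω => continuous_tp _ _) (fun ω => continuous_tp _ _) (by
      intro ω
      rw [hG, parseval]
      have h1 : ∑ j ∈ range (n + 1), ‖((min (A ω j) 1 : ℝ) : ℂ)‖ ^ 2 ≤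
          ∑ j ∈ range (n + 1), (1 : ℝ) := by
        refine Finset.sum_le_sum fun j _ => ?_
        rw [Complex.norm_real, Real.norm_eq_abs, sq_abs]
        have h2 : 0 ≤ min (A ω j) 1 := le_min (hA0 ω j) zero_le_one
        have h3 : min (A ω j) 1 ≤ 1 := min_le_right _ _
        nlinarith
      have h4 : ∑ j ∈ range (n + 1), (1 : ℝ) = n + 1 := by simp
      rw [h4] at h1
      have h5 : 2 * Real.pi * ∑ j ∈ range (n + 1), ‖((min (A ω j) 1 : ℝ) : ℂ)‖ ^ 2 ≤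
          2 * Real.pi * (n + 1) := mul_le_mul_of_nonneg_left h1 (by positivity)
      refine h5.trans ?_
      nlinarith [Real.pi_pos]) (by
      have h1 := hEXP hCNT q n k d (JJ n) (by omega) hJ
      refine h1.trans ?_
      rw [hcard]
      have h2 : (n : ℝ) ^ 3 * k.choose d + 2 * ((n : ℝ) ^ 2 * (k.choose d : ℝ) ^ 2) +
          n * (k.choose d : ℝ) ^ 3 ≤ 4 * n ^ 4 := by
        have a1 : (n : ℝ) ^ 3 * k.choose d ≤ n ^ 3 * n :=
          mul_le_mul_of_nonneg_left hM1 (by positivity)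
        have a2 : (n : ℝ) ^ 2 * (k.choose d : ℝ) ^ 2 ≤ n ^ 2 * n ^ 2 :=
          mul_le_mul_of_nonneg_left (pow_le_pow_left₀ hM0.le hM1 2) (by positivity)
        have a3 : (n : ℝ) * (k.choose d : ℝ) ^ 3 ≤ n * n ^ 3 :=
          mul_le_mul_of_nonneg_left (pow_le_pow_left₀ hM0.le hM1 3) (by positivity)
        nlinarith
      calc (q : ℝ) ^ k * (2 * Real.pi) * ((n : ℝ) ^ 3 * k.choose d +
            2 * ((n : ℝ) ^ 2 * (k.choose d : ℝ) ^ 2) + n * (k.choose d : ℝ) ^ 3)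
          ≤ (q : ℝ) ^ k * (2 * Real.pi) * (4 * n ^ 4) :=
            mul_le_mul_of_nonneg_left h2 (by positivity)
        _ = (q : ℝ) ^ k * (8 * Real.pi * n ^ 4) := by ring) (by
      rw [hcard]
      exact hpair2)
  obtain ⟨ω, hω⟩ := hL
  refine ⟨A ω, τ, hA0 ω, rfl, hω, ?_⟩
  have h1 := hPUP p hp n k q φ s ω (by omega) hs
  refine h1.trans ?_
  exact mul_le_mul_of_nonneg_left hφ3 (by positivity)

end Pool.Agent.P8H70.TR
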