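import Pool.Agent.P8H70.TR.Stm2
import Pool.Agent.P8H70.TR.Main

/-!
# Project TR, assembly: the lower bound up to powers of `log n`
-/

set_option autoImplicit false

open Complex MeasureTheory Polynomial Finset ComplexConjugate

namespace Pool.Agent.P8H70.TR

/-- TAY with two more points which correct the sums -/
lemma tay2 (hT : S_TAY) (Ω : Type) [Fintype Ω] (Y : Ω → ℝ) (w : Ω → ℂ) (K u B : ℝ) (hK : 1 ≤ K)
    (hY : ∀ ω, |Y ω| ≤ K)
    (hB : ∀ s : ℝ, |s| ≤ K → ‖∑ ω, ((max (Y ω - s) 0 : ℝ) : ℂ) * w ω‖ ≤ B) :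
    ‖∑ ω, cexp (((u * Y ω : ℝ) : ℂ) * I) * w ω‖ ≤
      u ^ 2 * (2 * K) * (B + K * (‖∑ ω, w ω‖ + ‖∑ ω, (Y ω : ℂ) * w ω‖) +
        (K + 1) * ‖∑ ω, (Y ω : ℂ) * w ω‖) +
      (‖∑ ω, w ω‖ + 2 * ‖∑ ω, (Y ω : ℂ) * w ω‖) := by
  set w1 : ℂ := -∑ ω, (Y ω : ℂ) * w ω with hw1
  set w0 : ℂ := -∑ ω, w ω - w1 with hw0
  have n1 : ‖w1‖ = ‖∑ ω, (Y ω : ℂ) * w ω‖ := by rw [hw1, norm_neg]
  have n0 : ‖w0‖ ≤ ‖∑ ω, w ω‖ + ‖∑ ω, (Y ω : ℂ) * w ω‖ := by
    rw [hw0]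
    refine (norm_sub_le _ _).trans ?_
    rw [norm_neg, n1]
  have h := hT (Ω ⊕ Bool) (Sum.elim Y (fun b => if b then 1 else 0))
    (Sum.elim w (fun b => if b then w1 else w0)) K u
    (B + K * (‖∑ ω, w ω‖ + ‖∑ ω, (Y ω : ℂ) * w ω‖) + (K + 1) * ‖∑ ω, (Y ω : ℂ) * w ω‖)
    (by linarith) (by
      rintro (ω | b)
      · exact hY ω
      · cases b
        · simp; linarith
        · simpa using hK) (by
      rw [Fintype.sum_sum_type]
      simp only [Sum.elim_inl, Sum.elim_inr, Fintype.sum_bool]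
      simp [hw0]) (by
      rw [Fintype.sum_sum_type]
      simp only [Sum.elim_inl, Sum.elim_inr, Fintype.sum_bool]
      simp [hw1]) (by
      intro s hs
      rw [Fintype.sum_sum_type]
      simp only [Sum.elim_inl, Sum.elim_inr, Fintype.sum_bool]
      simp only [if_true, Bool.false_eq_true, if_false]
      refine (norm_add_le _ _).trans ?_
      have h1 := hB s hs
      have h2 := abs_le.1 hs
      have h3 : ‖((max ((1 : ℝ) - s) 0 : ℝ) : ℂ) * w1‖ ≤ (K + 1) * ‖∑ ω, (Y ω : ℂ) * w ω‖ := by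
        rw [norm_mul, n1, Complex.norm_real, Real.norm_eq_abs,
          abs_of_nonneg (le_max_right _ _)]
        refine mul_le_mul_of_nonneg_right ?_ (norm_nonneg _)
        exact max_le (by linarith) (by linarith)
      have h4 : ‖((max ((0 : ℝ) - s) 0 : ℝ) : ℂ) * w0‖ ≤
          K * (‖∑ ω, w ω‖ + ‖∑ ω, (Y ω : ℂ) * w ω‖) := by
        rw [norm_mul, Complex.norm_real, Real.norm_eq_abs,
          abs_of_nonneg (le_max_right _ _)]
        refine mul_le_mul (max_le (by linarith) (by linarith)) n0 (norm_nonneg _) (by linarith)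
      have h5 := norm_add_le (((max ((1 : ℝ) - s) 0 : ℝ) : ℂ) * w1)
        (((max ((0 : ℝ) - s) 0 : ℝ) : ℂ) * w0)
      linarith)
  rw [Fintype.sum_sum_type] at h
  simp only [Sum.elim_inl, Sum.elim_inr, Fintype.sum_bool] at h
  simp only [if_true, Bool.false_eq_true, if_false] at h
  have e0 : ‖cexp (((u * 0 : ℝ) : ℂ) * I) * w0‖ = ‖w0‖ := by
    rw [norm_mul, Complex.norm_exp_ofReal_mul_I, one_mul]
  have e1 : ‖cexp (((u * 1 : ℝ) : ℂ) * I) * w1‖ = ‖w1‖ := by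
    rw [norm_mul, Complex.norm_exp_ofReal_mul_I, one_mul]
  set S : ℂ := ∑ ω, cexp (((u * Y ω : ℝ) : ℂ) * I) * w ω with hS
  set z1 : ℂ := cexp (((u * 1 : ℝ) : ℂ) * I) * w1
  set z0 : ℂ := cexp (((u * 0 : ℝ) : ℂ) * I) * w0
  have h6 : ‖S‖ ≤ ‖S + (z1 + z0)‖ + (‖z1‖ + ‖z0‖) := by
    have h7 : S = (S + (z1 + z0)) - (z1 + z0) := by ring
    calc ‖S‖ = ‖(S + (z1 + z0)) - (z1 + z0)‖ := by rw [← h7]
      _ ≤ ‖S + (z1 + z0)‖ + ‖z1 + z0‖ := norm_sub_le _ _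
      _ ≤ _ := by gcongr; exact norm_add_le _ _
  rw [e0, e1, n1] at h6
  linarith

lemma small {k : ℕ} (hk : 1000000 ≤ k) : 4 * (k : ℝ) ^ 3 * (119 / 120 : ℝ) ^ (k - 1) ≤ 1 := by
  have hkR : (1000000 : ℝ) ≤ k := by exact_mod_cast hk
  have hk0 : (0 : ℝ) < k := by linarith
  have hk1 : ((k - 1 : ℕ) : ℝ) = (k : ℝ) - 1 := by
    rw [Nat.cast_sub (by omega)]; simp
  have h1 : (119 / 120 : ℝ) ≤ Real.exp (-(1 / 120)) := by
    have := Real.add_one_le_exp (-(1 / 120) : ℝ)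
    linarith
  have h2 : (119 / 120 : ℝ) ^ (k - 1) ≤ Real.exp (-((k : ℝ) / 125)) := by
    refine (pow_le_pow_left₀ (by norm_num) h1 _).trans ?_
    rw [← Real.exp_nat_mul, hk1]
    apply Real.exp_le_exp.2
    linarith
  have h3 := Real.pow_div_factorial_le_exp ((k : ℝ) / 125) (by positivity) 6
  have h4 : 4 * (k : ℝ) ^ 3 ≤ ((k : ℝ) / 125) ^ 6 / (Nat.factorial 6 : ℕ) := by
    rw [le_div_iff₀ (by positivity), div_pow, le_div_iff₀ (by positivity)]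
    have h5 : (1000000 : ℝ) ^ 3 ≤ (k : ℝ) ^ 3 := pow_le_pow_left₀ (by norm_num) hkR 3
    have h6 : (k : ℝ) ^ 6 = (k : ℝ) ^ 3 * (k : ℝ) ^ 3 := by ring
    have h7 : ((Nat.factorial 6 : ℕ) : ℝ) = 720 := by norm_num [Nat.factorial]
    rw [h6, h7]
    have h8 : (0 : ℝ) < (k : ℝ) ^ 3 := by positivity
    nlinarith
  have h9 : 4 * (k : ℝ) ^ 3 * (119 / 120 : ℝ) ^ (k - 1) ≤
      Real.exp ((k : ℝ) / 125) * Real.exp (-((k : ℝ) / 125)) :=
    mul_le_mul (h4.trans h3) h2 (by positivity) (Real.exp_pos _).le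
  rw [← Real.exp_add, add_neg_cancel, Real.exp_zero] at h9
  exact h9

lemma norm_hh (q : ℕ) [NeZero q] {k : ℕ} (ω : Fin k → ZMod q) : ‖hh q ω‖ = 1 := by
  unfold hh
  exact Complex.norm_exp_ofReal_mul_I _

/-- a large correlation of the truncated coefficients with the test function -/
theorem corr (hT : S_TAY) (hS : S_SML) (q : ℕ) [NeZero q] (k : ℕ) (hq : 3 ≤ q)
    (hk : 1000000 ≤ k) : ∃ s : ℝ, |s| ≤ k ∧
    1 / (k : ℝ) ^ 2 * (q : ℝ) ^ k ≤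
      ‖∑ ω : Fin k → ZMod q, ((gg q s ω : ℝ) : ℂ) * conj (hh q ω)‖ := by
  have hkR : (1000000 : ℝ) ≤ k := by exact_mod_cast hk
  have hk0 : (0 : ℝ) < k := by linarith
  have hq0 : (0 : ℝ) < q := by
    have : 0 < q := by omega
    exact_mod_cast this
  have hqk : (0 : ℝ) < (q : ℝ) ^ k := by positivity
  obtain ⟨s1, s2⟩ := hS q k hq (by omega)
  set η : ℝ := (119 / 120 : ℝ) ^ (k - 1) with hη
  have hη0 : 0 < η := by positivity
  have hηs : 4 * (k : ℝ) ^ 3 * η ≤ 1 := small hk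
  have hpk : (119 / 120 : ℝ) ^ k ≤ η := by
    rw [hη]
    exact pow_le_pow_of_le_one (by norm_num) (by norm_num) (Nat.sub_le k 1)
  set W0 : ℝ := ‖∑ ω : Fin k → ZMod q, conj (hh q ω)‖ with hW0
  set W1 : ℝ := ‖∑ ω : Fin k → ZMod q, (YY q ω : ℂ) * conj (hh q ω)‖ with hW1
  have hW0le : W0 ≤ η * (q : ℝ) ^ k :=
    s1.trans (mul_le_mul_of_nonneg_right hpk hqk.le)
  have hW1le : W1 ≤ k * η * (q : ℝ) ^ k := s2
  have hW00 : 0 ≤ W0 := norm_nonneg _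
  have hW10 : 0 ≤ W1 := norm_nonneg _
  -- there is `s` with a large correlation with `max (Y - s) 0`
  obtain ⟨s, hs, hsB⟩ : ∃ s : ℝ, |s| ≤ k ∧ 5 / (k : ℝ) * (q : ℝ) ^ k ≤
      ‖∑ ω : Fin k → ZMod q, ((max (YY q ω - s) 0 : ℝ) : ℂ) * conj (hh q ω)‖ := by
    by_contra hcon
    push Not at hcon
    have h := tay2 hT (Fin k → ZMod q) (fun ω => YY q ω) (fun ω => conj (hh q ω)) k (1 / 4)
      (5 / (k : ℝ) * (q : ℝ) ^ k) (by linarith) (fun ω => abs_YY q ω)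
      (fun s hs => (hcon s hs).le)
    have e : ∑ ω : Fin k → ZMod q, cexp (((1 / 4 * YY q ω : ℝ) : ℂ) * I) * conj (hh q ω) =
        ((q : ℝ) ^ k : ℝ) := by
      have e1 : ∀ ω : Fin k → ZMod q,
          cexp (((1 / 4 * YY q ω : ℝ) : ℂ) * I) * conj (hh q ω) = 1 := by
        intro ω
        have e2 : cexp (((1 / 4 * YY q ω : ℝ) : ℂ) * I) = hh q ω := by
          unfold hh
          congr 3
          ring
        rw [e2, Complex.mul_conj, Complex.normSq_eq_norm_sq, norm_hh]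
        simp
      rw [Finset.sum_congr rfl fun ω _ => e1 ω, Finset.sum_const, Finset.card_univ,
        Fintype.card_fun, ZMod.card, Fintype.card_fin]
      simp
    rw [e, Complex.norm_real, Real.norm_eq_abs, abs_of_pos hqk] at h
    change (q : ℝ) ^ k ≤ (1 / 4) ^ 2 * (2 * (k : ℝ)) * (5 / (k : ℝ) * (q : ℝ) ^ k +
      k * (W0 + W1) + (k + 1) * W1) + (W0 + 2 * W1) at h
    have h1 : (1 / 4 : ℝ) ^ 2 * (2 * (k : ℝ)) * (5 / (k : ℝ) * (q : ℝ) ^ k +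
      k * (W0 + W1) + (k + 1) * W1) + (W0 + 2 * W1) = 5 / 8 * (q : ℝ) ^ k +
        (k / 8 * (k * (W0 + W1) + (k + 1) * W1) + (W0 + 2 * W1)) := by
      field_simp
      ring
    rw [h1] at h
    have h2 : k / 8 * (k * (W0 + W1) + (k + 1) * W1) + (W0 + 2 * W1) ≤
        (k : ℝ) ^ 3 * η * (q : ℝ) ^ k := by
      have h3 : k / 8 * (k * (W0 + W1) + (k + 1) * W1) + (W0 + 2 * W1) ≤
          k / 8 * (k * (η * (q : ℝ) ^ k + k * η * (q : ℝ) ^ k) +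
            (k + 1) * (k * η * (q : ℝ) ^ k)) +
            (η * (q : ℝ) ^ k + 2 * (k * η * (q : ℝ) ^ k)) := by
        gcongr
      refine h3.trans ?_
      have h4 : k / 8 * (k * (η * (q : ℝ) ^ k + k * η * (q : ℝ) ^ k) +
            (k + 1) * (k * η * (q : ℝ) ^ k)) +
            (η * (q : ℝ) ^ k + 2 * (k * η * (q : ℝ) ^ k)) =
          ((k : ℝ) ^ 3 / 4 + k ^ 2 / 4 + 1 + 2 * k) * (η * (q : ℝ) ^ k) := by ring
      rw [h4, mul_assoc ((k : ℝ) ^ 3)]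
      refine mul_le_mul_of_nonneg_right ?_ (by positivity)
      have h5 : (k : ℝ) ^ 2 * 1000000 ≤ k ^ 3 := by
        have : (k : ℝ) ^ 3 = k ^ 2 * k := by ring
        rw [this]
        exact mul_le_mul_of_nonneg_left hkR (by positivity)
      have h6 : (1 : ℝ) ≤ k ^ 2 := by nlinarith
      have h7 : (k : ℝ) ≤ k ^ 2 := by nlinarith
      nlinarith
    have h5 : (k : ℝ) ^ 3 * η * (q : ℝ) ^ k ≤ 1 / 4 * (q : ℝ) ^ k :=
      mul_le_mul_of_nonneg_right (by linarith) hqk.le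
    linarith
  refine ⟨s, hs, ?_⟩
  have hs2 := abs_le.1 hs
  have e : ∑ ω : Fin k → ZMod q, ((gg q s ω : ℝ) : ℂ) * conj (hh q ω) =
      (1 - s / (4 * k) : ℂ) * ∑ ω : Fin k → ZMod q, conj (hh q ω) +
      (1 / (4 * k) : ℂ) * ∑ ω : Fin k → ZMod q, (YY q ω : ℂ) * conj (hh q ω) -
      (1 / (4 * k) : ℂ) *
        ∑ ω : Fin k → ZMod q, ((max (YY q ω - s) 0 : ℝ) : ℂ) * conj (hh q ω) := by
    rw [Finset.mul_sum, Finset.mul_sum, Finset.mul_sum, ← Finset.sum_add_distrib,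
      ← Finset.sum_sub_distrib]
    refine Finset.sum_congr rfl fun ω _ => ?_
    rw [gg_eq q (by omega) s ω]
    push_cast
    ring
  rw [e]
  set Z0 : ℂ := ∑ ω : Fin k → ZMod q, conj (hh q ω)
  set Z1 : ℂ := ∑ ω : Fin k → ZMod q, (YY q ω : ℂ) * conj (hh q ω)
  set Z2 : ℂ := ∑ ω : Fin k → ZMod q, ((max (YY q ω - s) 0 : ℝ) : ℂ) * conj (hh q ω)
  have m0 : ‖(1 - s / (4 * k) : ℂ) * Z0‖ ≤ 5 / 4 * (η * (q : ℝ) ^ k) := by
    rw [norm_mul]
    have : (1 - s / (4 * k) : ℂ) = ((1 - s / (4 * k) : ℝ) : ℂ) := by push_cast; ring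
    rw [this, Complex.norm_real, Real.norm_eq_abs]
    refine mul_le_mul ?_ hW0le (norm_nonneg _) (by norm_num)
    rw [abs_le]
    have h1 : s / (4 * k) ≤ 1 / 4 := by
      rw [div_le_iff₀ (by positivity)]; linarith
    have h2 : -(1 / 4) ≤ s / (4 * k) := by
      rw [le_div_iff₀ (by positivity)]; linarith
    constructor <;> linarith
  have nk : ‖(1 / (4 * k) : ℂ)‖ = 1 / (4 * k) := by simp
  have m1 : ‖(1 / (4 * k) : ℂ) * Z1‖ ≤ 1 / 4 * (η * (q : ℝ) ^ k) := by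
    rw [norm_mul, nk]
    have h1 : 1 / (4 * (k : ℝ)) * ‖Z1‖ ≤ 1 / (4 * (k : ℝ)) * (k * η * (q : ℝ) ^ k) :=
      mul_le_mul_of_nonneg_left hW1le (by positivity)
    refine h1.trans (le_of_eq ?_)
    field_simp
  have m2 : 5 / 4 / (k : ℝ) ^ 2 * (q : ℝ) ^ k ≤ ‖(1 / (4 * k) : ℂ) * Z2‖ := by
    rw [norm_mul, nk]
    have h1 : 1 / (4 * (k : ℝ)) * (5 / (k : ℝ) * (q : ℝ) ^ k) ≤ 1 / (4 * (k : ℝ)) * ‖Z2‖ :=
      mul_le_mul_of_nonneg_left hsB (by positivity)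
    refine le_trans (le_of_eq ?_) h1
    field_simp
  have h1 : ‖(1 / (4 * k) : ℂ) * Z2‖ ≤ ‖(1 - s / (4 * k) : ℂ) * Z0 + (1 / (4 * k) : ℂ) * Z1 -
      (1 / (4 * k) : ℂ) * Z2‖ + (‖(1 - s / (4 * k) : ℂ) * Z0‖ + ‖(1 / (4 * k) : ℂ) * Z1‖) := by
    have h2 := norm_sub_le ((1 - s / (4 * k) : ℂ) * Z0 + (1 / (4 * k) : ℂ) * Z1)
      ((1 - s / (4 * k) : ℂ) * Z0 + (1 / (4 * k) : ℂ) * Z1 - (1 / (4 * k) : ℂ) * Z2)
    have h3 := norm_add_le ((1 - s / (4 * k) : ℂ) * Z0) ((1 / (4 * k) : ℂ) * Z1)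
    rw [sub_sub_cancel] at h2
    linarith
  have h2 : 3 / 2 * (η * (q : ℝ) ^ k) ≤ 1 / 4 / (k : ℝ) ^ 2 * (q : ℝ) ^ k := by
    rw [← mul_assoc]
    refine mul_le_mul_of_nonneg_right ?_ hqk.le
    rw [le_div_iff₀ (by positivity)]
    have h3 : 6 * ((k : ℝ) ^ 2 * η) ≤ 4 * (k : ℝ) ^ 3 * η := by
      have : 4 * (k : ℝ) ^ 3 * η = (4 * k) * (k ^ 2 * η) := by ring
      rw [this]
      refine mul_le_mul_of_nonneg_right (by linarith) (by positivity)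
    linarith
  have h3 : 1 / (k : ℝ) ^ 2 * (q : ℝ) ^ k = 5 / 4 / (k : ℝ) ^ 2 * (q : ℝ) ^ k -
      1 / 4 / (k : ℝ) ^ 2 * (q : ℝ) ^ k := by ring
  rw [h3]
  linarith

/-- the lower bound for given parameters -/
theorem lower2 (hKER : S_KER) (hPUP : S_PUP) (hT : S_TAY) (hS : S_SML) (hB4 : S_B4)
    (hL4 : S_L4B) (hPAIR : S_PAIR2) (hLEV : S_LEV) (p : ℝ) (hp : 0 < p) :
    ∃ C : ℝ, 0 < C ∧ ∀ n k : ℕ, 3 ≤ n → 1000000 ≤ k → 30 * Real.log n ≤ k →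
      ∃ (a : ℕ → ℝ) (τ : ℝ), (∀ j, 0 ≤ a j) ∧ τ = 1 / (2 * (k : ℝ) ^ 2) ∧
        τ ^ 4 / 16000 * (τ * Real.sqrt n / 44) ^ p ≤
          ∫ t in (0 : ℝ)..(2 * Real.pi), ‖tp n (fun j => ((min (a j) 1 : ℝ) : ℂ)) t‖ ^ p ∧
        ∫ t in (0 : ℝ)..(2 * Real.pi), ‖tp n (fun j => (a j : ℂ)) t‖ ^ p ≤
          (4 * k : ℝ) ^ (p + 1) * (C * (n : ℝ) ^ (p - 1)) := by
  obtain ⟨C, hC, hker⟩ := hKER p hp
  refine ⟨C, hC, fun n k hn hk hkn => ?_⟩
  obtain ⟨φ, hφ1, hφ2, hφ3⟩ := hker n (by omega)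
  obtain ⟨q, hq1, hqp⟩ := Nat.exists_infinite_primes (2 * n + 3)
  have : NeZero q := ⟨hqp.ne_zero⟩
  obtain ⟨s, hs, hcor⟩ := corr hT hS q k (by omega) hk
  have hkR : (1000000 : ℝ) ≤ k := by exact_mod_cast hk
  have hk0 : (0 : ℝ) < k := by linarith
  have hnR : (3 : ℝ) ≤ n := by exact_mod_cast hn
  have hn0 : (0 : ℝ) < n := by linarith
  have hqR : (0 : ℝ) < q := by exact_mod_cast hqp.pos
  set A : (Fin k → ZMod q) → ℕ → ℝ := fun ω j => φ j * (1 + (YY q (mu q j ω) - s) / (4 * k))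
    with hA
  have hA0 : ∀ ω j, 0 ≤ A ω j := by
    intro ω j
    refine mul_nonneg (hφ1 j).1 ?_
    have h1 := abs_le.1 (abs_YY q (mu q j ω))
    have h2 := abs_le.1 hs
    have h3 : -1 ≤ (YY q (mu q j ω) - s) / (4 * k) := by
      rw [le_div_iff₀ (by positivity)]
      linarith [h1.1, h2.2]
    linarith
  set τ : ℝ := 1 / (2 * (k : ℝ) ^ 2) with hτ
  have hτ0 : 0 < τ := by positivity
  set G : (Fin k → ZMod q) → ℝ → ℂ := fun ω => tp n (fun j => ((min (A ω j) 1 : ℝ) : ℂ)) with hG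
  set T : (Fin k → ZMod q) → ℝ → ℂ :=
    fun ω => tp n (fun j => if j ∈ JJ n then hh q (mu q j ω) else 0) with hTdef
  have hJ : ∀ j ∈ JJ n, 1 ≤ j ∧ j ≤ n := by
    intro j hj
    rw [mem_JJ] at hj
    omega
  have hcard : (Fintype.card (Fin k → ZMod q) : ℝ) = (q : ℝ) ^ k := by
    rw [Fintype.card_fun, ZMod.card, Fintype.card_fin]
    push_cast
    rfl
  have hpair := hPAIR q n k (JJ n) hqp (by omega) hJ (fun ω => ((gg q s ω : ℝ) : ℂ))
    (fun ω => hh q ω) (fun j ω => ((min (A ω j) 1 : ℝ) : ℂ)) (by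
      intro j hj ω
      rw [mem_JJ] at hj
      simp only [hA, gg]
      rw [hφ2 j hj.1 hj.2, one_mul])
  have hpair2 : (q : ℝ) ^ k * (τ * n) ≤
      ‖∑ ω : Fin k → ZMod q, ∫ t in (0 : ℝ)..(2 * Real.pi), G ω t * conj (T ω t)‖ := by
    have e : ∑ ω : Fin k → ZMod q, ∫ t in (0 : ℝ)..(2 * Real.pi), G ω t * conj (T ω t) =
      2 * Real.pi * ((JJ n).card : ℂ) *
        ∑ ω : Fin k → ZMod q, ((gg q s ω : ℝ) : ℂ) * conj (hh q ω) := hpair
    rw [e, norm_mul, norm_mul, norm_mul]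
    have n1 : ‖(2 : ℂ)‖ = 2 := by simp
    have n2 : ‖((Real.pi : ℝ) : ℂ)‖ = Real.pi := by
      rw [Complex.norm_real, Real.norm_eq_abs, abs_of_pos Real.pi_pos]
    have n3 : ‖(((JJ n).card : ℕ) : ℂ)‖ = (JJ n).card := by simp
    rw [n1, n2, n3]
    have hcJ := card_JJ (n := n) (by omega)
    have hpi : (3 : ℝ) ≤ Real.pi := Real.pi_gt_three.le
    calc (q : ℝ) ^ k * (τ * n) ≤ 2 * 3 * (n / 8) * (1 / (k : ℝ) ^ 2 * (q : ℝ) ^ k) := by
          rw [hτ]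
          have h1 : (0 : ℝ) ≤ (q : ℝ) ^ k * n / (k : ℝ) ^ 2 := by positivity
          have h2 : (q : ℝ) ^ k * (1 / (2 * (k : ℝ) ^ 2) * n) =
            1 / 2 * ((q : ℝ) ^ k * n / (k : ℝ) ^ 2) := by field_simp
          have h3 : 2 * 3 * ((n : ℝ) / 8) * (1 / (k : ℝ) ^ 2 * (q : ℝ) ^ k) =
            3 / 4 * ((q : ℝ) ^ k * n / (k : ℝ) ^ 2) := by field_simp; ring
          rw [h2, h3]
          linarith
      _ ≤ _ := by gcongr
  have hsn : 0 < Real.sqrt n := Real.sqrt_pos.2 hn0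
  have hsn2 : Real.sqrt n * Real.sqrt n = n := Real.mul_self_sqrt hn0.le
  have hfour : (n : ℝ) * (29 / 30 : ℝ) ^ k ≤ 1 := by
    have h1 : (29 / 30 : ℝ) ≤ Real.exp (-(1 / 30)) := by
      have := Real.add_one_le_exp (-(1 / 30) : ℝ)
      linarith
    have h2 : (29 / 30 : ℝ) ^ k ≤ Real.exp (-Real.log n) := by
      refine (pow_le_pow_left₀ (by norm_num) h1 _).trans ?_
      rw [← Real.exp_nat_mul]
      apply Real.exp_le_exp.2
      linarith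
    rw [Real.exp_neg, Real.exp_log hn0] at h2
    calc (n : ℝ) * (29 / 30 : ℝ) ^ k ≤ n * (n : ℝ)⁻¹ := mul_le_mul_of_nonneg_left h2 hn0.le
      _ = 1 := mul_inv_cancel₀ hn0.ne'
  have hL := hLEV (Fin k → ZMod q) G (fun ω t => (Real.sqrt n : ℂ) * T ω t) p τ n hp hτ0
    (by omega) (fun ω => continuous_tp _ _)
    (fun ω => continuous_const.mul (continuous_tp _ _)) (by
      intro ω
      rw [hG, parseval]
      have h1 : ∑ j ∈ range (n + 1), ‖((min (A ω j) 1 : ℝ) : ℂ)‖ ^ 2 ≤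
          ∑ j ∈ range (n + 1), (1 : ℝ) := by
        refine Finset.sum_le_sum fun j _ => ?_
        rw [Complex.norm_real, Real.norm_eq_abs, sq_abs]
        have h2 : 0 ≤ min (A ω j) 1 := le_min (hA0 ω j) zero_le_one
        have h3 : min (A ω j) 1 ≤ 1 := min_le_right _ _
        nlinarith
      have h4 : ∑ j ∈ range (n + 1), (1 : ℝ) = n + 1 := by simp
      rw [h4] at h1
      have h5 : 2 * Real.pi * ∑ j ∈ range (n + 1), ‖((min (A ω j) 1 : ℝ) : ℂ)‖ ^ 2 ≤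
          2 * Real.pi * (n + 1) := mul_le_mul_of_nonneg_left h1 (by positivity)
      refine h5.trans ?_
      nlinarith [Real.pi_pos]) (by
      have h1 := hL4 hB4 q n k (JJ n) (by omega) hJ hfour
      have e1 : ∀ ω : Fin k → ZMod q, ∫ t in (0 : ℝ)..(2 * Real.pi),
          ‖(Real.sqrt n : ℂ) * T ω t‖ ^ 4 =
          (n : ℝ) ^ 2 * ∫ t in (0 : ℝ)..(2 * Real.pi), ‖T ω t‖ ^ 4 := by
        intro ω
        rw [← intervalIntegral.integral_const_mul]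
        refine intervalIntegral.integral_congr fun t _ => ?_
        show ‖(Real.sqrt n : ℂ) * T ω t‖ ^ 4 = (n : ℝ) ^ 2 * ‖T ω t‖ ^ 4
        rw [norm_mul, Complex.norm_real, Real.norm_eq_abs, abs_of_pos hsn, mul_pow]
        congr 1
        calc Real.sqrt n ^ 4 = (Real.sqrt n * Real.sqrt n) ^ 2 := by ring
          _ = _ := by rw [hsn2]
      rw [Finset.sum_congr rfl fun ω _ => e1 ω, ← Finset.mul_sum, hcard]
      calc (n : ℝ) ^ 2 * ∑ ω : Fin k → ZMod q, ∫ t in (0 : ℝ)..(2 * Real.pi), ‖T ω t‖ ^ 4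
          ≤ (n : ℝ) ^ 2 * ((q : ℝ) ^ k * (6 * Real.pi * n ^ 2)) :=
            mul_le_mul_of_nonneg_left h1 (by positivity)
        _ ≤ (n : ℝ) ^ 2 * ((q : ℝ) ^ k * (8 * Real.pi * n ^ 2)) := by
            gcongr
            norm_num
        _ = _ := by ring) (by
      rw [hcard]
      have e1 : ∀ ω : Fin k → ZMod q, ∫ t in (0 : ℝ)..(2 * Real.pi),
          G ω t * conj ((Real.sqrt n : ℂ) * T ω t) =
          (Real.sqrt n : ℂ) * ∫ t in (0 : ℝ)..(2 * Real.pi), G ω t * conj (T ω t) := by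
        intro ω
        rw [← intervalIntegral.integral_const_mul]
        refine intervalIntegral.integral_congr fun t _ => ?_
        show G ω t * conj ((Real.sqrt n : ℂ) * T ω t) = (Real.sqrt n : ℂ) *
          (G ω t * conj (T ω t))
        rw [map_mul, Complex.conj_ofReal]
        ring
      rw [Finset.sum_congr rfl fun ω _ => e1 ω, ← Finset.mul_sum, norm_mul, Complex.norm_real,
        Real.norm_eq_abs, abs_of_pos hsn]
      calc (q : ℝ) ^ k * (τ * (n * Real.sqrt n)) =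
            Real.sqrt n * ((q : ℝ) ^ k * (τ * n)) := by ring
        _ ≤ _ := mul_le_mul_of_nonneg_left hpair2 hsn.le)
  obtain ⟨ω, hω⟩ := hL
  refine ⟨A ω, τ, hA0 ω, rfl, hω, ?_⟩
  have h1 := hPUP p hp n k q φ s ω (by omega) hs
  refine h1.trans ?_
  exact mul_le_mul_of_nonneg_left hφ3 (by positivity)

end Pool.Agent.P8H70.TR
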