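import Pool.Agent.P8H70.TR.Pol

/-!
# Project TR: the upper bound (package NIK)
-/

set_option autoImplicit false

open Complex MeasureTheory Polynomial Finset ComplexConjugate

namespace Pool.Agent.P8H70.TR

lemma eval_eq_tp (n : ℕ) (P : ℂ[X]) (h : P.natDegree ≤ n) (t : ℝ) :
    P.eval (cexp (t * I)) = tp n P.coeff t := by
  unfold tp
  rw [Polynomial.eval_eq_sum_range' (n := n + 1) (by omega)]
  refine Finset.sum_congr rfl fun j _ => ?_
  rw [exp_pow]

lemma phi_zero : phi 0 = 0 := by simp [phi]

lemma norm_phi_le (a : ℂ) : ‖phi a‖ ≤ ‖a‖ := by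
  unfold phi
  rw [norm_mul, norm_div, Complex.norm_real, Complex.norm_real, Real.norm_eq_abs,
    Real.norm_eq_abs, abs_of_nonneg (norm_nonneg a),
    abs_of_nonneg (le_min (norm_nonneg a) zero_le_one)]
  rcases (norm_nonneg a).eq_or_lt with h | h
  · rw [← h]; simp
  · rw [div_self h.ne', one_mul]
    exact min_le_left _ _

lemma trunc_eq_tp (n : ℕ) (P : ℂ[X]) (h : P.natDegree ≤ n) (t : ℝ) :
    (trunc P).eval (cexp (t * I)) = tp n (fun j => phi (P.coeff j)) t := by
  unfold trunc tp
  rw [Polynomial.eval_finsetSum]
  have hsub : P.support ⊆ range (n + 1) := by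
    intro j hj
    rw [Finset.mem_range]
    have := Polynomial.le_natDegree_of_mem_supp j hj
    omega
  rw [Finset.sum_subset hsub]
  · refine Finset.sum_congr rfl fun j hj => ?_
    rw [Polynomial.eval_monomial, exp_pow]
  · intro j _ hj
    rw [Polynomial.notMem_support_iff] at hj
    rw [Polynomial.eval_monomial, hj, phi_zero, zero_mul]

theorem nik : S_NIK := by
  intro p hp hp2 n P hdeg
  have hn1 : (0 : ℝ) < (n : ℝ) + 1 := by positivity
  set a : ℕ → ℂ := P.coeff with ha
  set m : ℝ := ∑ j ∈ range (n + 1), ‖a j‖ ^ 2 with hm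
  have hm0 : 0 ≤ m := Finset.sum_nonneg fun j _ => by positivity
  have e1 : Ip p P = ∫ t in (0 : ℝ)..(2 * Real.pi), ‖tp n a t‖ ^ p := by
    unfold Ip
    refine intervalIntegral.integral_congr fun t _ => ?_
    show ‖P.eval (cexp (t * I))‖ ^ p = _
    rw [eval_eq_tp n P hdeg t]
  have e2 : Ip p (trunc P) =
      ∫ t in (0 : ℝ)..(2 * Real.pi), ‖tp n (fun j => phi (a j)) t‖ ^ p := by
    unfold Ip
    refine intervalIntegral.integral_congr fun t _ => ?_
    show ‖(trunc P).eval (cexp (t * I))‖ ^ p = _
    rw [trunc_eq_tp n P hdeg t]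
  rcases hm0.eq_or_lt with h0 | hmpos
  · -- P = 0
    have hz : ∀ j ∈ range (n + 1), a j = 0 := by
      intro j hj
      have := (Finset.sum_eq_zero_iff_of_nonneg (fun j _ => by positivity)).1 h0.symm j hj
      simpa using this
    have z1 : ∀ t, tp n a t = 0 := by
      intro t
      unfold tp
      exact Finset.sum_eq_zero fun j hj => by rw [hz j hj, zero_mul]
    have z2 : ∀ t, tp n (fun j => phi (a j)) t = 0 := by
      intro t
      unfold tp
      refine Finset.sum_eq_zero fun j hj => ?_
      show phi (a j) * _ = 0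
      rw [hz j hj, phi_zero, zero_mul]
    have i2 : Ip p (trunc P) = 0 := by
      rw [e2]
      simp [z2, Real.zero_rpow hp.ne']
    unfold Lp
    rw [i2, Real.zero_rpow (by positivity)]
    have : 0 ≤ Ip p P := by
      rw [e1]
      exact intervalIntegral.integral_nonneg (by positivity) fun t _ => by positivity
    positivity
  · -- the mean square of the truncated polynomial
    have hpi : 0 < 2 * Real.pi := by positivity
    have q1 := parseval n a
    have q2 := parseval n (fun j => phi (a j))
    have hle : ∑ j ∈ range (n + 1), ‖phi (a j)‖ ^ 2 ≤ m :=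
      Finset.sum_le_sum fun j _ => pow_le_pow_left₀ (norm_nonneg _) (norm_phi_le _) 2
    set g : ℝ → ℝ := fun t => ‖tp n (fun j => phi (a j)) t‖ with hg
    set f : ℝ → ℝ := fun t => ‖tp n a t‖ with hf
    have hgc : Continuous g := (continuous_tp n _).norm
    have hfc : Continuous f := (continuous_tp n _).norm
    have hg0 : ∀ t, 0 ≤ g t := fun t => norm_nonneg _
    have hf0 : ∀ t, 0 ≤ f t := fun t => norm_nonneg _
    -- Step 1
    have s1 : ∫ t in (0 : ℝ)..(2 * Real.pi), g t ^ p ≤ 2 * Real.pi * m ^ (p / 2) := by
      have pt : ∀ t, g t ^ p ≤ m ^ (p / 2) * (1 + p / 2 * (g t ^ 2 / m - 1)) := by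
        intro t
        have b := rpow_one_add_le_one_add_mul_self (s := g t ^ 2 / m - 1) (by
          have : 0 ≤ g t ^ 2 / m := by positivity
          linarith) (p := p / 2) (by positivity) (by linarith)
        have e3 : 1 + (g t ^ 2 / m - 1) = g t ^ 2 / m := by ring
        rw [e3] at b
        have e4 : g t ^ p = m ^ (p / 2) * (g t ^ 2 / m) ^ (p / 2) := by
          rw [← Real.mul_rpow hmpos.le (by positivity), mul_div_cancel₀ _ hmpos.ne',
            ← Real.rpow_natCast, ← Real.rpow_mul (hg0 t)]
          congr 1
          push_cast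
          ring
        rw [e4]
        exact mul_le_mul_of_nonneg_left b (by positivity)
      calc ∫ t in (0 : ℝ)..(2 * Real.pi), g t ^ p
          ≤ ∫ t in (0 : ℝ)..(2 * Real.pi), m ^ (p / 2) * (1 + p / 2 * (g t ^ 2 / m - 1)) := by
            apply intervalIntegral.integral_mono_on hpi.le
            · exact (hgc.rpow_const fun t => Or.inr hp.le).intervalIntegrable _ _
            · apply Continuous.intervalIntegrable
              fun_prop
            · intro t _
              exact pt t
        _ = m ^ (p / 2) * (2 * Real.pi * (1 - p / 2) +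
              p / 2 / m * ∫ t in (0 : ℝ)..(2 * Real.pi), g t ^ 2) := by
            have e5 : ∀ t, m ^ (p / 2) * (1 + p / 2 * (g t ^ 2 / m - 1)) =
                m ^ (p / 2) * (1 - p / 2) + m ^ (p / 2) * (p / 2 / m) * g t ^ 2 := by
              intro t
              field_simp
              ring
            rw [intervalIntegral.integral_congr fun t _ => e5 t,
              intervalIntegral.integral_add (by simp) (by
                apply Continuous.intervalIntegrable
                fun_prop), intervalIntegral.integral_const,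
              intervalIntegral.integral_const_mul (m ^ (p / 2) * (p / 2 / m)) (fun t => g t ^ 2)]
            simp only [sub_zero, smul_eq_mul]
            ring
        _ ≤ m ^ (p / 2) * (2 * Real.pi * (1 - p / 2) + p / 2 / m * (2 * Real.pi * m)) := by
            have : ∫ t in (0 : ℝ)..(2 * Real.pi), g t ^ 2 ≤ 2 * Real.pi * m := by
              rw [q2]
              exact mul_le_mul_of_nonneg_left hle hpi.le
            gcongr
        _ = 2 * Real.pi * m ^ (p / 2) := by
            field_simp
            ring
    -- Step 2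
    have hB : ∀ t, f t ^ 2 ≤ ((n : ℝ) + 1) * m := by
      intro t
      have h1 : f t ≤ ∑ j ∈ range (n + 1), ‖a j‖ := by
        rw [hf]
        show ‖tp n a t‖ ≤ _
        unfold tp
        refine (norm_sum_le _ _).trans (Finset.sum_le_sum fun j _ => ?_)
        rw [norm_mul, Complex.norm_exp_ofReal_mul_I, mul_one]
      have h2 : (∑ j ∈ range (n + 1), ‖a j‖) ^ 2 ≤
          ((range (n + 1)).card : ℝ) * ∑ j ∈ range (n + 1), ‖a j‖ ^ 2 :=
        sq_sum_le_card_mul_sum_sq
      rw [Finset.card_range] at h2
      push_cast at h2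
      exact (pow_le_pow_left₀ (hf0 t) h1 2).trans h2
    have s2 : 2 * Real.pi * m ≤ (((n : ℝ) + 1) * m) ^ (1 - p / 2) *
        ∫ t in (0 : ℝ)..(2 * Real.pi), f t ^ p := by
      have q3 : ∫ t in (0 : ℝ)..(2 * Real.pi), f t ^ 2 = 2 * Real.pi * m := q1
      rw [← q3, ← intervalIntegral.integral_const_mul]
      apply intervalIntegral.integral_mono_on hpi.le
      · apply Continuous.intervalIntegrable
        fun_prop
      · apply Continuous.intervalIntegrable
        exact continuous_const.mul (hfc.rpow_const fun t => Or.inr hp.le)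
      · intro t _
        have e6 : f t ^ 2 = (f t ^ 2) ^ (1 - p / 2) * f t ^ p := by
          rcases (hf0 t).eq_or_lt with h | h
          · rw [← h, Real.zero_rpow hp.ne']
            simp
          · rw [← Real.rpow_natCast, ← Real.rpow_mul (hf0 t), ← Real.rpow_add h]
            congr 1
            push_cast
            ring
        rw [e6]
        refine mul_le_mul_of_nonneg_right ?_ (Real.rpow_nonneg (hf0 t) _)
        exact Real.rpow_le_rpow (by positivity) (hB t) (by linarith)
    -- conclusion
    have hIp : 0 ≤ Ip p P := by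
      rw [e1]
      exact intervalIntegral.integral_nonneg (by positivity) fun t _ => by positivity
    have s3 : Ip p (trunc P) ≤ ((n : ℝ) + 1) ^ (1 - p / 2) * Ip p P := by
      have h1 : Ip p (trunc P) ≤ 2 * Real.pi * m ^ (p / 2) := by rw [e2]; exact s1
      have h2 : 2 * Real.pi * m ≤ (((n : ℝ) + 1) * m) ^ (1 - p / 2) * Ip p P := by
        rw [e1]; exact s2
      rw [Real.mul_rpow hn1.le hmpos.le] at h2
      have h3 : m = m ^ (p / 2) * m ^ (1 - p / 2) := by
        rw [← Real.rpow_add hmpos]
        norm_num
      have h4 : 0 < m ^ (1 - p / 2) := by positivity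
      have h5 : 2 * Real.pi * m ^ (p / 2) * m ^ (1 - p / 2) ≤
          ((n : ℝ) + 1) ^ (1 - p / 2) * Ip p P * m ^ (1 - p / 2) := by
        calc 2 * Real.pi * m ^ (p / 2) * m ^ (1 - p / 2) = 2 * Real.pi * m := by
              rw [mul_assoc, ← h3]
          _ ≤ _ := h2
          _ = _ := by ring
      exact h1.trans (le_of_mul_le_mul_right h5 h4)
    unfold Lp
    have hIt : 0 ≤ Ip p (trunc P) := by
      rw [e2]
      exact intervalIntegral.integral_nonneg (by positivity) fun t _ => by positivity
    calc Ip p (trunc P) ^ (1 / p) ≤ (((n : ℝ) + 1) ^ (1 - p / 2) * Ip p P) ^ (1 / p) :=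
          Real.rpow_le_rpow hIt s3 (by positivity)
      _ = ((n : ℝ) + 1) ^ (1 / p - 1 / 2) * Ip p P ^ (1 / p) := by
          rw [Real.mul_rpow (by positivity) hIp, ← Real.rpow_mul hn1.le]
          congr 2
          field_simp

end Pool.Agent.P8H70.TR
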