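import Pool.Agent.P8H70.TR.Main2

/-!
# Project TR, assembly: the norms of the truncation operator
-/

set_option autoImplicit false

open Complex MeasureTheory Polynomial Finset ComplexConjugate

namespace Pool.Agent.P8H70.TR

/-- `N^real_{n,p}` -/
noncomputable def NR (p : ℝ) (n : ℕ) : ENNReal :=
  ⨆ P ∈ {P : ℝ[X] | P.natDegree ≤ n ∧ P ≠ 0},
    ENNReal.ofReal (Lp p (trunc (P.map Complex.ofRealHom)) / Lp p (P.map Complex.ofRealHom))

/-- `N^comp_{n,p}` -/
noncomputable def NC (p : ℝ) (n : ℕ) : ENNReal :=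
  ⨆ P ∈ {P : ℂ[X] | P.natDegree ≤ n ∧ P ≠ 0}, ENNReal.ofReal (Lp p (trunc P) / Lp p P)

lemma Lp_nonneg (p : ℝ) (P : ℂ[X]) : 0 ≤ Lp p P := by
  unfold Lp Ip
  apply Real.rpow_nonneg
  apply intervalIntegral.integral_nonneg (by positivity)
  intro t _
  positivity

lemma NR_le_NC (p : ℝ) (n : ℕ) : NR p n ≤ NC p n := by
  unfold NR NC
  refine iSup₂_le fun P hP => ?_
  have hP' : (P.map Complex.ofRealHom) ∈ {P : ℂ[X] | P.natDegree ≤ n ∧ P ≠ 0} := by
    refine ⟨?_, ?_⟩
    · exact (Polynomial.natDegree_map_le).trans hP.1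
    · intro h
      exact hP.2 ((Polynomial.map_eq_zero_iff Complex.ofRealHom.injective).1 h)
  exact le_iSup₂ (f := fun (P : ℂ[X]) (_ : P ∈ {P : ℂ[X] | P.natDegree ≤ n ∧ P ≠ 0}) =>
    ENNReal.ofReal (Lp p (trunc P) / Lp p P)) (P.map Complex.ofRealHom) hP'

lemma NC_le (hNIK : S_NIK) {p : ℝ} (hp0 : 0 < p) (hp2 : p < 2) (n : ℕ) :
    NC p n ≤ ENNReal.ofReal (((n : ℝ) + 1) ^ (1 / p - 1 / 2)) := by
  unfold NC
  refine iSup₂_le fun P hP => ENNReal.ofReal_le_ofReal ?_
  have h := hNIK p hp0 hp2 n P hP.1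
  rcases (Lp_nonneg p P).eq_or_lt with h0 | h0
  · rw [← h0, div_zero]
    positivity
  · rw [div_le_iff₀ h0]
    exact h

/-- the lower bound -/
theorem lowerNR (hKER : S_KER) (hPUP : S_PUP) (hT : S_TAY) (hS : S_SML) (hB4 : S_B4)
    (hL4 : S_L4B) (hPAIR : S_PAIR2) (hLEV : S_LEV) (hNIK : S_NIK) (p : ℝ) (hp : 0 < p)
    (hp2 : p < 2) : ∃ c : ℝ, 0 < c ∧ ∀ n : ℕ, 3 ≤ n →
      ENNReal.ofReal (c * (n : ℝ) ^ (1 / p - 1 / 2) / (Real.log n) ^ (3 + 9 / p)) ≤ NR p n := by
  obtain ⟨C, hC, hlow⟩ := lower2 hKER hPUP hT hS hB4 hL4 hPAIR hLEV p hp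
  set K0 : ℝ := 1000031 with hK0
  set c : ℝ := Real.exp ((1 / p) * (-Real.log 256000 - p * Real.log 88 - (p + 1) * Real.log 4 -
    Real.log C) - (3 + 9 / p) * Real.log K0) with hc
  refine ⟨c, Real.exp_pos _, fun n hn => ?_⟩
  have hnR : (3 : ℝ) ≤ n := by exact_mod_cast hn
  have hn0 : (0 : ℝ) < n := by linarith
  have hL1 : 1 ≤ Real.log n := by
    rw [Real.le_log_iff_exp_le hn0]
    have := Real.exp_one_lt_d9
    linarith
  set k : ℕ := ⌈30 * Real.log n⌉₊ + 1000000 with hk
  have hkR : (k : ℝ) = (⌈30 * Real.log n⌉₊ : ℝ) + 1000000 := by rw [hk]; push_cast; rfl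
  have hk1 : 30 * Real.log n ≤ k := by
    rw [hkR]
    have := Nat.le_ceil (30 * Real.log n)
    linarith
  have hk2 : (k : ℝ) ≤ K0 * Real.log n := by
    rw [hkR]
    have h := Nat.ceil_lt_add_one (a := 30 * Real.log n) (by linarith)
    have h' : (1000001 : ℝ) ≤ 1000001 * Real.log n := by linarith
    rw [hK0]
    linarith
  have hk0 : (0 : ℝ) < k := by rw [hkR]; positivity
  obtain ⟨a, τ, ha, hτ, h1, h2⟩ := hlow n k hn (by omega) hk1
  have hτ0 : 0 < τ := by rw [hτ]; positivity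
  have hsn : 0 < Real.sqrt n := Real.sqrt_pos.2 hn0
  set X : ℝ := τ ^ 4 / 16000 * (τ * Real.sqrt n / 44) ^ p with hX
  set Y : ℝ := (4 * k : ℝ) ^ (p + 1) * (C * (n : ℝ) ^ (p - 1)) with hY
  have hX0 : 0 < X := by positivity
  have hY0 : 0 < Y := by positivity
  -- the polynomial
  set P : ℝ[X] := pol n a with hP
  have e1 : Ip p (trunc (P.map Complex.ofRealHom)) =
      ∫ t in (0 : ℝ)..(2 * Real.pi), ‖tp n (fun j => ((min (a j) 1 : ℝ) : ℂ)) t‖ ^ p := by
    unfold Ip
    refine intervalIntegral.integral_congr fun t _ => ?_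
    show ‖(trunc (P.map Complex.ofRealHom)).eval (cexp (t * I))‖ ^ p = _
    rw [hP, eval_trunc n a ha t]
  have e2 : Ip p (P.map Complex.ofRealHom) =
      ∫ t in (0 : ℝ)..(2 * Real.pi), ‖tp n (fun j => (a j : ℂ)) t‖ ^ p := by
    unfold Ip
    refine intervalIntegral.integral_congr fun t _ => ?_
    show ‖(P.map Complex.ofRealHom).eval (cexp (t * I))‖ ^ p = _
    rw [hP, eval_pol n a t]
  rw [← e1] at h1
  rw [← e2] at h2
  set I1 : ℝ := Ip p (trunc (P.map Complex.ofRealHom)) with hI1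
  set I2 : ℝ := Ip p (P.map Complex.ofRealHom) with hI2
  have hI1pos : 0 < I1 := lt_of_lt_of_le hX0 h1
  have hI2nonneg : 0 ≤ I2 := by
    rw [hI2]
    unfold Ip
    apply intervalIntegral.integral_nonneg (by positivity)
    intro t _
    positivity
  have hdeg : P.natDegree ≤ n := natDegree_pol n a
  have hnik := hNIK p hp hp2 n (P.map Complex.ofRealHom) ((Polynomial.natDegree_map_le).trans hdeg)
  have hI2pos : 0 < I2 := by
    rcases hI2nonneg.eq_or_lt with h0 | h0
    · exfalso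
      have h3 : Lp p (P.map Complex.ofRealHom) = 0 := by
        unfold Lp
        rw [← hI2, ← h0, Real.zero_rpow (by positivity)]
      rw [h3, mul_zero] at hnik
      have h4 : 0 < Lp p (trunc (P.map Complex.ofRealHom)) := by
        unfold Lp
        rw [← hI1]
        exact Real.rpow_pos_of_pos hI1pos _
      linarith
    · exact h0
  have hP0 : P ≠ 0 := by
    intro h0
    rw [hI2, h0, Polynomial.map_zero] at hI2pos
    unfold Ip at hI2pos
    simp [Real.zero_rpow hp.ne'] at hI2pos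
  have hmem : P ∈ {P : ℝ[X] | P.natDegree ≤ n ∧ P ≠ 0} := ⟨hdeg, hP0⟩
  refine le_trans ?_ (le_iSup₂ (f := fun (P : ℝ[X])
    (_ : P ∈ {P : ℝ[X] | P.natDegree ≤ n ∧ P ≠ 0}) =>
    ENNReal.ofReal (Lp p (trunc (P.map Complex.ofRealHom)) / Lp p (P.map Complex.ofRealHom)))
    P hmem)
  apply ENNReal.ofReal_le_ofReal
  show c * (n : ℝ) ^ (1 / p - 1 / 2) / (Real.log n) ^ (3 + 9 / p) ≤
    Lp p (trunc (P.map Complex.ofRealHom)) / Lp p (P.map Complex.ofRealHom)
  have h5 : Lp p (trunc (P.map Complex.ofRealHom)) / Lp p (P.map Complex.ofRealHom) =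
      (I1 / I2) ^ (1 / p) := by
    unfold Lp
    rw [← hI1, ← hI2, Real.div_rpow hI1pos.le hI2pos.le]
  rw [h5]
  have h6 : (X / Y) ^ (1 / p) ≤ (I1 / I2) ^ (1 / p) := by
    apply Real.rpow_le_rpow (by positivity) _ (by positivity)
    exact div_le_div₀ hI1pos.le h1 hI2pos h2
  refine le_trans ?_ h6
  have hLpos : 0 < Real.log n := by linarith
  have hlX : Real.log X = -Real.log 256000 - p * Real.log 88 - (8 + 2 * p) * Real.log k +
      p / 2 * Real.log n := by
    have hk' : (k : ℝ) ≠ 0 := hk0.ne'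
    have e3 : τ ^ 4 / 16000 = 1 / (256000 * (k : ℝ) ^ 8) := by
      rw [hτ]; field_simp; ring
    have e4 : τ * Real.sqrt n / 44 = Real.sqrt n / (88 * (k : ℝ) ^ 2) := by
      rw [hτ]; field_simp; ring
    rw [hX, e3, e4, Real.log_mul (by positivity) (by positivity), Real.log_rpow (by positivity),
      Real.log_div (by norm_num) (by positivity), Real.log_div (by positivity) (by positivity),
      Real.log_mul (by norm_num) (by positivity), Real.log_mul (by norm_num) (by positivity),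
      Real.log_pow, Real.log_pow, Real.log_sqrt hn0.le, Real.log_one]
    push_cast
    ring
  have hlY : Real.log Y = (p + 1) * (Real.log 4 + Real.log k) + Real.log C +
      (p - 1) * Real.log n := by
    rw [hY, Real.log_mul (by positivity) (by positivity), Real.log_rpow (by positivity),
      Real.log_mul (by norm_num) (by positivity), Real.log_mul hC.ne' (by positivity),
      Real.log_rpow hn0]
    ring
  have hlk : Real.log k ≤ Real.log K0 + Real.log (Real.log n) := by
    rw [← Real.log_mul (by norm_num) hLpos.ne']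
    exact Real.log_le_log hk0 hk2
  rw [← Real.log_le_log_iff (by positivity) (by positivity), Real.log_rpow (by positivity),
    Real.log_div hX0.ne' hY0.ne', Real.log_div (by positivity) (by positivity),
    Real.log_mul (Real.exp_pos _).ne' (by positivity), Real.log_rpow hn0,
    Real.log_rpow hLpos, hlX, hlY, Real.log_exp]
  have h7 : 1 / p * (-Real.log 256000 - p * Real.log 88 - (8 + 2 * p) * Real.log k +
      p / 2 * Real.log n - ((p + 1) * (Real.log 4 + Real.log k) + Real.log C +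
      (p - 1) * Real.log n)) = 1 / p * (-Real.log 256000 - p * Real.log 88 -
        (p + 1) * Real.log 4 - Real.log C) - (3 + 9 / p) * Real.log k +
        (1 / p - 1 / 2) * Real.log n := by
    field_simp
    ring
  rw [h7]
  have h8 : (3 + 9 / p) * Real.log k ≤ (3 + 9 / p) * (Real.log K0 + Real.log (Real.log n)) :=
    mul_le_mul_of_nonneg_left hlk (by positivity)
  linarith

end Pool.Agent.P8H70.TR
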