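import Pool.Agent.P8H70.TR.Cha

/-!
# Project TR, assembly: polynomials and Parseval
-/

set_option autoImplicit false

open Complex MeasureTheory Polynomial Finset ComplexConjugate

namespace Pool.Agent.P8H70.TR

/-- the real polynomial with the coefficients `a 0, …, a n` -/
noncomputable def pol (n : ℕ) (a : ℕ → ℝ) : ℝ[X] := ∑ j ∈ range (n + 1), Polynomial.monomial j (a j)

lemma coeff_pol (n : ℕ) (a : ℕ → ℝ) (j : ℕ) :
    (pol n a).coeff j = if j ∈ range (n + 1) then a j else 0 := by
  unfold pol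
  rw [Polynomial.finsetSum_coeff]
  simp only [Polynomial.coeff_monomial]
  rw [Finset.sum_ite_eq' (range (n + 1)) j a]

lemma natDegree_pol (n : ℕ) (a : ℕ → ℝ) : (pol n a).natDegree ≤ n := by
  unfold pol
  refine Polynomial.natDegree_sum_le_of_forall_le _ _ fun j hj => ?_
  have : j ≤ n := by have := Finset.mem_range.1 hj; omega
  exact (Polynomial.natDegree_monomial_le _).trans this

lemma exp_pow (t : ℝ) (j : ℕ) : cexp (t * I) ^ j = cexp (((j * t : ℝ) : ℂ) * I) := by
  rw [← Complex.exp_nat_mul]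
  congr 1
  push_cast
  ring

lemma eval_pol (n : ℕ) (a : ℕ → ℝ) (t : ℝ) :
    ((pol n a).map Complex.ofRealHom).eval (cexp (t * I)) = tp n (fun j => (a j : ℂ)) t := by
  unfold pol tp
  rw [Polynomial.map_sum, Polynomial.eval_finsetSum]
  refine Finset.sum_congr rfl fun j _ => ?_
  rw [Polynomial.map_monomial, Polynomial.eval_monomial, exp_pow]
  rfl

lemma phi_nonneg {a : ℝ} (ha : 0 ≤ a) : phi (a : ℂ) = ((min a 1 : ℝ) : ℂ) := by
  unfold phi
  rw [Complex.norm_real, Real.norm_eq_abs, abs_of_nonneg ha]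
  rcases ha.eq_or_lt with h | h
  · rw [← h]; simp
  · have : (a : ℂ) ≠ 0 := by exact_mod_cast h.ne'
    rw [div_self this, one_mul]

lemma eval_trunc (n : ℕ) (a : ℕ → ℝ) (ha : ∀ j, 0 ≤ a j) (t : ℝ) :
    (trunc ((pol n a).map Complex.ofRealHom)).eval (cexp (t * I)) =
      tp n (fun j => ((min (a j) 1 : ℝ) : ℂ)) t := by
  unfold trunc tp
  rw [Polynomial.eval_finsetSum]
  have hc : ∀ j, ((pol n a).map Complex.ofRealHom).coeff j =
      ((if j ∈ range (n + 1) then a j else 0 : ℝ) : ℂ) := by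
    intro j
    rw [Polynomial.coeff_map, coeff_pol]
    rfl
  have hsub : ((pol n a).map Complex.ofRealHom).support ⊆ range (n + 1) := by
    intro j hj
    by_contra hn
    rw [Polynomial.mem_support_iff, hc, if_neg hn] at hj
    exact hj (by simp)
  rw [Finset.sum_subset hsub]
  · refine Finset.sum_congr rfl fun j hj => ?_
    rw [Polynomial.eval_monomial, exp_pow, hc, if_pos hj, phi_nonneg (ha j)]
  · intro j _ hj
    rw [Polynomial.notMem_support_iff] at hj
    rw [Polynomial.eval_monomial, hj]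
    simp [phi]

lemma int_exp (m : ℤ) : ∫ t in (0 : ℝ)..(2 * Real.pi), cexp (((m * t : ℝ) : ℂ) * I) =
    if m = 0 then ((2 * Real.pi : ℝ) : ℂ) else 0 := by
  split_ifs with h
  · subst h
    simp
  · have hne : ((m : ℂ) * I) ≠ 0 := mul_ne_zero (by exact_mod_cast h) I_ne_zero
    have e : ∀ t : ℝ, cexp (((m * t : ℝ) : ℂ) * I) = cexp ((m : ℂ) * I * t) := by
      intro t
      congr 1
      push_cast
      ring
    rw [intervalIntegral.integral_congr fun t _ => e t, integral_exp_mul_complex hne]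
    have e1 : (m : ℂ) * I * ((2 * Real.pi : ℝ) : ℂ) = m * (2 * Real.pi * I) := by
      push_cast; ring
    rw [e1, Complex.exp_int_mul_two_pi_mul_I]
    simp

lemma continuous_tp (n : ℕ) (a : ℕ → ℂ) : Continuous (tp n a) := by
  unfold tp
  fun_prop

lemma parseval (n : ℕ) (a : ℕ → ℂ) : ∫ t in (0 : ℝ)..(2 * Real.pi), ‖tp n a t‖ ^ 2 =
    2 * Real.pi * ∑ j ∈ range (n + 1), ‖a j‖ ^ 2 := by
  have key : ((∫ t in (0 : ℝ)..(2 * Real.pi), ‖tp n a t‖ ^ 2 : ℝ) : ℂ) =
      ((2 * Real.pi * ∑ j ∈ range (n + 1), ‖a j‖ ^ 2 : ℝ) : ℂ) := by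
    rw [← intervalIntegral.integral_ofReal]
    have e : ∀ t : ℝ, ((‖tp n a t‖ ^ 2 : ℝ) : ℂ) = ∑ j ∈ range (n + 1), ∑ l ∈ range (n + 1),
        a j * conj (a l) * cexp ((((j - l : ℤ) * t : ℝ) : ℂ) * I) := by
      intro t
      have : ((‖tp n a t‖ ^ 2 : ℝ) : ℂ) = tp n a t * conj (tp n a t) := by
        rw [Complex.mul_conj, Complex.normSq_eq_norm_sq]
      rw [this]
      unfold tp
      rw [map_sum, Finset.sum_mul_sum]
      refine Finset.sum_congr rfl fun j _ => Finset.sum_congr rfl fun l _ => ?_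
      rw [map_mul, ← Complex.exp_conj, mul_mul_mul_comm, ← Complex.exp_add]
      congr 2
      rw [map_mul, Complex.conj_ofReal, Complex.conj_I]
      push_cast
      ring
    rw [intervalIntegral.integral_congr fun t _ => e t]
    rw [intervalIntegral.integral_finsetSum fun j _ => by
      apply Continuous.intervalIntegrable; fun_prop]
    have e2 : ∀ j ∈ range (n + 1), ∫ t in (0 : ℝ)..(2 * Real.pi), ∑ l ∈ range (n + 1),
        a j * conj (a l) * cexp ((((j - l : ℤ) * t : ℝ) : ℂ) * I) =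
        ((‖a j‖ ^ 2 : ℝ) : ℂ) * ((2 * Real.pi : ℝ) : ℂ) := by
      intro j hj
      rw [intervalIntegral.integral_finsetSum fun l _ => by
        apply Continuous.intervalIntegrable; fun_prop]
      have e3 : ∀ l ∈ range (n + 1), ∫ t in (0 : ℝ)..(2 * Real.pi),
          a j * conj (a l) * cexp ((((j - l : ℤ) * t : ℝ) : ℂ) * I) =
          if j = l then a j * conj (a l) * ((2 * Real.pi : ℝ) : ℂ) else 0 := by
        intro l _
        rw [intervalIntegral.integral_const_mul, int_exp]
        by_cases h : j = l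
        · subst h; simp
        · rw [if_neg h, if_neg (by omega), mul_zero]
      rw [Finset.sum_congr rfl e3, Finset.sum_ite_eq (range (n + 1)) j, if_pos hj]
      congr 1
      rw [Complex.mul_conj, Complex.normSq_eq_norm_sq]
    rw [Finset.sum_congr rfl e2, ← Finset.sum_mul]
    push_cast
    ring
  exact_mod_cast key

end Pool.Agent.P8H70.TR
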