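import Pool.Agent.P8H70.TR.Stm

/-!
# Project TR, second stage: only powers of `log n` are lost

THEOREM. For every `p` in `(0, 2)` there are `c, a > 0` with
`c n^(1/p - 1/2) (log n)^(-a) ≤ N^real_{n,p} ≤ N^comp_{n,p} ≤ (n+1)^(1/p - 1/2)` for `n ≥ 3`.

The proof is the one of `Stm` with `k = ⌈30 log n⌉ + 20000` frequencies and with the test polynomial
`T(t) = ∑_{j ∈ J} exp(i Y(jω) / 4) e^{ijt}` with unimodular coefficients in place of the one with the coefficients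
`Ψ(jω)`: its fourth moment has the order `n²` (L4B), since `|mean of exp (i u (cos jx + cos j'x - cos lx - cos l'x))|`
is at most `29/30` for nontrivial quadruples (B4), and `(29/30)^k ≤ 1/n`.
-/

set_option autoImplicit false

open Complex MeasureTheory Polynomial Finset ComplexConjugate

namespace Pool.Agent.P8H70.TR

/-- `exp (i Y(ω) / 4)` -/
noncomputable def hh (q : ℕ) [NeZero q] {k : ℕ} (ω : Fin k → ZMod q) : ℂ :=
  cexp (((YY q ω / 4 : ℝ) : ℂ) * I)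

/-- B4 (100 lines). Let `D(x) = cs(ax) + cs(bx) - cs(cx) - cs(ex)`, `|D| ≤ 4`, `y = D / 4`. `∑_x D = 0` (as
`a, b, c, e` are not `0` mod `q`) and `∑_x D² = V q` with `V ≥ 2`: the frequencies `a, b` are different from
`c, e`, all are in `[1, n]` and `2 n < q`, so `∑ cs(ax) cs(cx) = 0` and so on, `∑ cs(ax)² = q/2`,
`∑ cs(ax) cs(bx) ≥ 0`. By `Complex.exp_bound` (`n = 3`): `|exp(iy) - 1 - iy + y²/2| ≤ (2/9) |y|³ ≤ (2/9) y²` as
`|y| ≤ 1`, so `|∑ exp(iy)| ≤ ∑ (1 - y²/2) + (2/9) ∑ y² = q - (5/18) ∑ y² = q - (5/18) V q / 16 ≤ (29/30) q`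
(`(5/18) (2/16) = 0.0347 ≥ 1/30`; and `1 - y²/2 ≥ 0`). -/
def S_B4 : Prop := ∀ (q : ℕ) [NeZero q] (n a b c e : ℕ), 2 * n < q → 1 ≤ a → a ≤ n → 1 ≤ b →
  b ≤ n → 1 ≤ c → c ≤ n → 1 ≤ e → e ≤ n → a ≠ c → a ≠ e → a + b = c + e →
  ‖∑ x : ZMod q, cexp ((((cs q (a * x) + cs q (b * x) - cs q (c * x) - cs q (e * x)) / 4 : ℝ) : ℂ) *
    I)‖ ≤ 29 / 30 * q

/-- SML (90 lines). `∑_ω conj (hh ω) = (∑_x exp(- i cs(x) / 4))^k`; the inner sum has norm at most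
`q - (5/18) ∑ (cs x / 4)² = q (1 - 5/576) ≤ (119/120) q` by the same estimate as in B4 (`∑ cs = 0`,
`∑ cs² = q/2`, `q ≥ 3`). `∑_ω YY ω conj (hh ω) = k (∑_x cs(x) exp(-i cs(x)/4)) (∑_x exp(-i cs(x)/4))^(k-1)`, and the
first factor has norm at most `q`. -/
def S_SML : Prop := ∀ (q : ℕ) [NeZero q] (k : ℕ), 3 ≤ q → 1 ≤ k →
  ‖∑ ω : Fin k → ZMod q, conj (hh q ω)‖ ≤ (119 / 120 : ℝ) ^ k * (q : ℝ) ^ k ∧
  ‖∑ ω : Fin k → ZMod q, (YY q ω : ℂ) * conj (hh q ω)‖ ≤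
    k * (119 / 120 : ℝ) ^ (k - 1) * (q : ℝ) ^ k

/-- L4B (120 lines; compare `Pool.Agent.P8H66.TR.Exp`). Expand `|T|^4 = T T conj T conj T` with the coefficients
`hh (j ω)`. The circle integral is `2π` if `a + b = c + e` and `0` otherwise; the sum over `ω` is the `k`-th power of the
sum in B4; it is at most `q^k` in modulus always, and at most `(29/30)^k q^k` if `a ≠ c` and `a ≠ e`. There are at most
`2 n²` quadruples in `J` with `a + b = c + e` and (`a = c` or `a = e`), and at most `n³` quadruples with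
`a + b = c + e`. So the total is at most `2π q^k (2 n² + n³ (29/30)^k) ≤ 6π q^k n²`. -/
def S_L4B : Prop := S_B4 → ∀ (q : ℕ) [NeZero q] (n k : ℕ) (J : Finset ℕ), 2 * n < q →
  (∀ j ∈ J, 1 ≤ j ∧ j ≤ n) → (n : ℝ) * (29 / 30 : ℝ) ^ k ≤ 1 →
  ∑ ω : Fin k → ZMod q, ∫ t in (0 : ℝ)..(2 * Real.pi),
    ‖tp n (fun j => if j ∈ J then hh q (mu q j ω) else 0) t‖ ^ 4 ≤
  (q : ℝ) ^ k * (6 * Real.pi * n ^ 2)

/-- PAIR2 (the proof of PAIR, `Pool.Agent.P8H21.TR.Pair`, for a general function `h` in place of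
`Psi q d`). -/
def S_PAIR2 : Prop := ∀ (q : ℕ) [NeZero q] (n k : ℕ) (J : Finset ℕ), q.Prime → n < q →
  (∀ j ∈ J, 1 ≤ j ∧ j ≤ n) → ∀ (g h : (Fin k → ZMod q) → ℂ) (b : ℕ → (Fin k → ZMod q) → ℂ),
  (∀ j ∈ J, ∀ ω, b j ω = g (mu q j ω)) →
  ∑ ω : Fin k → ZMod q, ∫ t in (0 : ℝ)..(2 * Real.pi), tp n (fun j => b j ω) t *
    conj (tp n (fun j => if j ∈ J then h (mu q j ω) else 0) t) =
  2 * Real.pi * (J.card : ℂ) * ∑ ω : Fin k → ZMod q, g ω * conj (h ω)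

end Pool.Agent.P8H70.TR
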